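import Pool.Agent.N20.EW.Stm3
import Pool.Agent.Y914.NV.Irr
import Pool.Agent.Y63.NV.Brq77
import Pool.Agent.Y705.NV.Ppt

/-!
# Project EW (helper20), X3: the lower bound for the number of irreducible modular characters of a
cyclic extension (helper966)
-/

set_option autoImplicit false

open scoped Classical

noncomputable section

namespace Pool.Agent.N966.EWX3

open Pool.Agent.Y63.NV Pool.Agent.Y914.NV Representation
open scoped MonoidAlgebra

section tw

variable {F : Type} [Field F] [IsAlgClosed F] {N : Type} [Group N] [Finite N]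

lemma manyR {V : Type} [AddCommGroup V] [Module F V] [FiniteDimensional F V]
    (ρ : Representation F N V) (hρ : ρ.IsIrreducible) {ι : Type} (W : ι → Type)
    [∀ j, AddCommGroup (W j)] [∀ j, Module F (W j)] [∀ j, FiniteDimensional F (W j)]
    (σ : ∀ j, Representation F N (W j)) (s : Finset ι) :
    (∀ j ∈ s, (σ j).IsIrreducible ∧ ρ.character ≠ (σ j).character) →
      ∃ x : F[N], ρ.asAlgebraHom x = 1 ∧ ∀ j ∈ s, (σ j).asAlgebraHom x = 0 := by
  induction s using Finset.induction_on with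
  | empty => exact fun _ => ⟨1, map_one _, fun ψ h => absurd h (Finset.notMem_empty _)⟩
  | insert j s _ ih =>
    intro h
    obtain ⟨x, hx1, hx2⟩ := ih fun k hk => h k (Finset.mem_insert_of_mem hk)
    obtain ⟨hσ, hne⟩ := h j (Finset.mem_insert_self _ _)
    have := hρ
    have := hσ
    obtain ⟨a, ha, hb⟩ := pair (F := F) (A := F[N]) (noniso ρ (σ j) hne)
    have ha' : ρ.asAlgebraHom a = 1 := by
      ext v
      rw [act, ha, LinearEquiv.apply_symm_apply, Module.End.one_apply]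
    have hb' : (σ j).asAlgebraHom a = 0 := by
      ext v
      rw [act, hb, map_zero, LinearMap.zero_apply]
    refine ⟨x * a, by rw [map_mul, hx1, ha', mul_one], fun k hk => ?_⟩
    rcases Finset.mem_insert.1 hk with rfl | hk
    · rw [map_mul, hb', mul_zero]
    · rw [map_mul, hx2 k hk, zero_mul]

lemma burnR {V : Type} [AddCommGroup V] [Module F V] [FiniteDimensional F V]
    (ρ : Representation F N V) (hρ : ρ.IsIrreducible) (P : V →ₗ[F] V) :
    ∃ a : F[N], ρ.asAlgebraHom a = P := by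
  have := hρ
  obtain ⟨a, ha⟩ := burn (F := F) (A := F[N]) (V := ρ.asModule)
    ((ρ.asModuleEquiv.symm : V →ₗ[F] ρ.asModule) ∘ₗ P ∘ₗ
      (ρ.asModuleEquiv : ρ.asModule →ₗ[F] V))
  refine ⟨a, ?_⟩
  ext w
  rw [act, ha]
  simp

omit [IsAlgClosed F] [Finite N] in
lemma trace_expand' [Fintype N] {V : Type} [AddCommGroup V] [Module F V] [FiniteDimensional F V]
    (ρ : Representation F N V) (A : V →ₗ[F] V) (a : N → F) :
    LinearMap.trace F V (A * ρ.asAlgebraHom (∑ g, MonoidAlgebra.single g (a g))) =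
      ∑ g, a g * LinearMap.trace F V (A * ρ g) := by
  rw [map_sum, Finset.mul_sum, map_sum]
  refine Finset.sum_congr rfl fun g _ => ?_
  rw [asAlgebraHom_single, mul_smul_comm, map_smul, smul_eq_mul]

theorem tw {ι : Type} (s : Finset ι) (W : ι → Type)
    [∀ j, AddCommGroup (W j)] [∀ j, Module F (W j)] [∀ j, FiniteDimensional F (W j)]
    (σ : ∀ j, Representation F N (W j)) (hσ : ∀ j ∈ s, (σ j).IsIrreducible)
    (hne : ∀ j ∈ s, ∀ k ∈ s, (σ j).character = (σ k).character → j = k)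
    (A B : ∀ j, W j →ₗ[F] W j) (hAB : ∀ j ∈ s, A j * B j = 1) (c : ι → F)
    (hc : ∀ g : N, ∑ j ∈ s, c j * LinearMap.trace F (W j) (A j * σ j g) = 0) :
    ∀ j ∈ s, c j = 0 := by
  have : Fintype N := Fintype.ofFinite N
  intro j0 hj0
  obtain ⟨x, hx1, hx2⟩ := manyR (σ j0) (hσ j0 hj0) W σ (s.erase j0) (fun j hj =>
    ⟨hσ j (Finset.mem_of_mem_erase hj), fun h => Finset.ne_of_mem_erase hj
      (hne j0 hj0 j (Finset.mem_of_mem_erase hj) h).symm⟩)
  obtain ⟨a, ha⟩ := burnR (σ j0) (hσ j0 hj0) (B j0)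
  obtain ⟨b, hb⟩ := trace_one (σ j0) (hσ j0 hj0)
  obtain ⟨e, he⟩ := expand (F := F) (a * b * x)
  have h1 : ∀ j ∈ s, LinearMap.trace F (W j) (A j * (σ j).asAlgebraHom (a * b * x)) =
      if j = j0 then 1 else 0 := by
    intro j hj
    split_ifs with h
    · subst h
      rw [map_mul (σ j).asAlgebraHom, map_mul (σ j).asAlgebraHom, hx1, mul_one, ha, ← mul_assoc,
        hAB j hj, one_mul, hb]
    · rw [map_mul (σ j).asAlgebraHom, hx2 j (Finset.mem_erase.2 ⟨h, hj⟩), mul_zero, mul_zero,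
        map_zero]
  have h2 : ∑ g, e g * ∑ j ∈ s, c j * LinearMap.trace F (W j) (A j * σ j g) = c j0 := by
    calc ∑ g, e g * ∑ j ∈ s, c j * LinearMap.trace F (W j) (A j * σ j g) =
        ∑ j ∈ s, c j * ∑ g, e g * LinearMap.trace F (W j) (A j * σ j g) := by
          simp only [Finset.mul_sum]
          rw [Finset.sum_comm]
          exact Finset.sum_congr rfl fun j _ => Finset.sum_congr rfl fun g _ => by ring
      _ = ∑ j ∈ s, c j * (if j = j0 then 1 else 0) := by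
          refine Finset.sum_congr rfl fun j hj => ?_
          rw [← trace_expand', ← he, h1 j hj]
      _ = c j0 := by simp [hj0]
  rw [← h2]
  refine Finset.sum_eq_zero fun g _ => ?_
  rw [hc g, mul_zero]

/-- restriction along an isomorphism -/
lemma irr_equiv {G : Type} [Group G] (e : G ≃* N) {V : Type} [AddCommGroup V] [Module F V]
    (ρ : Representation F N V) (h : ρ.IsIrreducible) :
    Representation.IsIrreducible (ρ.comp e.toMonoidHom : Representation F G V) := by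
  let ρ' : Representation F G V := ρ.comp e.toMonoidHom
  let o : Subrepresentation ρ' ≃o Subrepresentation ρ :=
    { toFun := fun s => ⟨s.toSubmodule, fun g v hv => by
        have h2 := s.apply_mem_toSubmodule (e.symm g) hv
        have h3 : ρ' (e.symm g) = ρ g := congrArg ρ (e.apply_symm_apply g)
        rwa [h3] at h2⟩
      invFun := fun s => ⟨s.toSubmodule, fun g v hv => s.apply_mem_toSubmodule (e g) hv⟩
      left_inv := fun s => rfl
      right_inv := fun s => rfl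
      map_rel_iff' := Iff.rfl }
  exact o.isSimpleOrder_iff.2 h

end tw

end Pool.Agent.N966.EWX3

namespace Pool.Agent.N966.EWX3

open Pool.Agent.Y63.NV Pool.Agent.N20.EW

variable {F : Type} [Field F] {G K : Type} [Group G] [Group K]

section cf

variable (i : G →* K) [hn : i.range.Normal]

/-- conjugation by `k` on `G` -/
def cf (k : K) (x : G) : G := (hn.conj_mem (i x) ⟨x, rfl⟩ k).choose

theorem cf_spec (k : K) (x : G) : i (cf i k x) = k * i x * k⁻¹ :=
  (hn.conj_mem (i x) ⟨x, rfl⟩ k).choose_spec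

variable {i}

/-- conjugation by `k` on `G` -/
def cj (hi : Function.Injective i) (k : K) : G ≃* G where
  toFun := cf i k
  invFun := cf i k⁻¹
  left_inv x := hi (by rw [cf_spec, cf_spec]; group)
  right_inv x := hi (by rw [cf_spec, cf_spec]; group)
  map_mul' x y := hi (by rw [map_mul, cf_spec, cf_spec, cf_spec, map_mul]; group)

theorem cj_apply (hi : Function.Injective i) (k : K) (x : G) : cj hi k x = cf i k x := rfl

end cf

variable {i : G →* K} {z : K → F}

/-- the irreducible traces of `G` on which `z` acts as `c` -/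
def Yc (_ : CycExt i z) (c : F) : Type :=
  {φ : G → F // IsIrrTrace φ ∧ ∀ x : G, ∑ᶠ g : G, z (i g) * φ (g * x) = c * φ x}

variable (h : CycExt i z) (c : F) [hn : i.range.Normal]

instance : MulAction K (Yc h c) where
  smul k φ := ⟨fun x => φ.1 (cj h.inj k⁻¹ x), B77.irr_comp (cj h.inj k⁻¹) φ.2.1, fun x => by
    have h1 := φ.2.2 (cj h.inj k⁻¹ x)
    have h3 := finsum_comp_equiv (f := fun g => z (i g) * φ.1 (g * cj h.inj k⁻¹ x))
      (cj h.inj k⁻¹).toEquiv
    rw [← h1, ← h3]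
    refine finsum_congr fun g => ?_
    have h2 : z (i (cj h.inj k⁻¹ g)) = z (i g) := by
      rw [cj_apply, cf_spec]
      exact h.cl k⁻¹ (i g)
    change z (i g) * φ.1 (cj h.inj k⁻¹ (g * x)) =
      z (i (cj h.inj k⁻¹ g)) * φ.1 (cj h.inj k⁻¹ g * cj h.inj k⁻¹ x)
    rw [h2, ← map_mul]⟩
  one_smul φ := Subtype.ext (funext fun x => congrArg φ.1 (h.inj (by
    rw [cj_apply, cf_spec]
    simp)))
  mul_smul k l φ := Subtype.ext (funext fun x => congrArg φ.1 (h.inj (by
    rw [cj_apply, cj_apply, cj_apply, cf_spec, cf_spec, cf_spec]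
    group)))

variable {h c}

theorem smul_apply (k : K) (φ : Yc h c) (x : G) : (k • φ).1 x = φ.1 (cf i k⁻¹ x) := rfl

/-- the stabiliser -/
abbrev St (φ : Yc h c) : Subgroup K := MulAction.stabilizer K φ

theorem mem_St (φ : Yc h c) (k : K) :
    k ∈ St φ ↔ ∀ x y : G, i y = k * i x * k⁻¹ → φ.1 y = φ.1 x := by
  rw [MulAction.mem_stabilizer_iff]
  constructor
  · intro h1 x y hxy
    have h2 := congrFun (congrArg Subtype.val h1) y
    rw [smul_apply] at h2
    rw [← h2]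
    refine congrArg φ.1 (h.inj ?_)
    rw [cf_spec, hxy]
    group
  · intro h1
    refine Subtype.ext (funext fun x => ?_)
    rw [smul_apply]
    refine (h1 _ _ ?_).symm
    rw [cf_spec]
    group

theorem range_le (φ : Yc h c) : i.range ≤ St φ := by
  rintro _ ⟨g, rfl⟩
  rw [mem_St]
  intro x y hxy
  have h1 : y = g * x * g⁻¹ := h.inj (by rw [hxy]; simp)
  rw [h1]
  exact B77.irr_conj φ.2.1 g x

/-- the embedding -/
def iS (φ : Yc h c) : G →* St φ := i.codRestrict (St φ) fun g => range_le φ ⟨g, rfl⟩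

theorem iS_coe (φ : Yc h c) (g : G) : ((iS φ g : St φ) : K) = i g := rfl

/-- the quotient of the stabiliser -/
abbrev Tt (φ : Yc h c) : Subgroup (K ⧸ i.range) := (St φ).map (QuotientGroup.mk' i.range)

theorem mem_Tt (φ : Yc h c) (k : K) : (k : K ⧸ i.range) ∈ Tt φ ↔ k ∈ St φ := by
  constructor
  · rintro ⟨l, hl, hlk⟩
    have h1 : l⁻¹ * k ∈ i.range := QuotientGroup.eq.1 hlk
    have h2 := (St φ).mul_mem hl (range_le φ h1)
    rwa [mul_inv_cancel_left] at h2
  · intro hk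
    exact ⟨k, hk, rfl⟩

theorem stc_eq (φ : Yc h c) : stc i φ.1 = Nat.card (St φ) :=
  Nat.card_congr (Equiv.subtypeEquivRight fun k => (mem_St φ k).symm)

theorem card_St [Finite G] [Finite K] (φ : Yc h c) :
    Nat.card (St φ) = Nat.card (Tt φ) * Nat.card G := by
  have h1 : (Tt φ).index = (St φ).index := Subgroup.index_map_eq _
    (QuotientGroup.mk'_surjective _) (by rw [QuotientGroup.ker_mk']; exact range_le φ)
  have h2 := (St φ).card_mul_index
  have h3 := (Tt φ).card_mul_index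
  have h4 : Nat.card (K ⧸ i.range) * Nat.card i.range = Nat.card K := by
    rw [← Subgroup.index_eq_card, mul_comm]
    exact i.range.card_mul_index
  have h5 : Nat.card i.range = Nat.card G :=
    (Nat.card_congr (MonoidHom.ofInjective h.inj).toEquiv).symm
  have h6 : 0 < (St φ).index := Nat.pos_of_ne_zero Subgroup.index_ne_zero_of_finite
  refine Nat.eq_of_mul_eq_mul_right h6 ?_
  rw [h2, ← h4, ← h3, h1, h5]
  ring

theorem tt_eq [Finite G] [Finite K] (φ : Yc h c) : tt i φ.1 = Nat.card (Tt φ) := by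
  unfold tt
  rw [stc_eq, card_St]
  exact Nat.mul_div_cancel _ Nat.card_pos

theorem cyc_Q (h : CycExt i z) : IsCyclic (K ⧸ i.range) := by
  obtain ⟨t, ht⟩ := h.cyc
  refine ⟨(t : K ⧸ i.range), fun y => ?_⟩
  obtain ⟨k, rfl⟩ := QuotientGroup.mk_surjective y
  obtain ⟨n, g, hk⟩ := ht k
  refine ⟨n, ?_⟩
  change (t : K ⧸ i.range) ^ n = (k : K ⧸ i.range)
  have h9 : ((i g : K) : K ⧸ i.range) = 1 :=
    (QuotientGroup.eq_one_iff (i g)).2 (MonoidHom.mem_range.2 ⟨g, rfl⟩)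
  rw [hk, QuotientGroup.mk_mul, QuotientGroup.mk_zpow, h9, mul_one]

/-- the elements of order prime to `p` in a cyclic group -/
theorem card_reg (p : ℕ) [Fact p.Prime] {L : Type} [Group L] [Finite L] (T : Subgroup L)
    (hT : IsCyclic T) :
    Nat.card T / p ^ (Nat.card T).factorization p ≤ Nat.card {d : L // d ∈ T ∧ ¬ p ∣ orderOf d} := by
  have hp : p.Prime := Fact.out
  obtain ⟨g, hg⟩ := hT.exists_generator
  set n := Nat.card T with hnd
  have hn0 : n ≠ 0 := Nat.card_pos.ne'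
  have ho : orderOf g = n := orderOf_eq_card_of_forall_mem_zpowers hg
  set q := p ^ n.factorization p with hq
  have hq0 : q ≠ 0 := pow_ne_zero _ hp.ne_zero
  have hqn : q ∣ n := Nat.ordProj_dvd n p
  have ho2 : orderOf ((g : L) ^ q) = n / q := by
    rw [orderOf_pow_of_dvd hq0 (by rw [Subgroup.orderOf_coe, ho]; exact hqn), Subgroup.orderOf_coe,
      ho]
  rw [← ho2, ← Nat.card_zpowers]
  refine Nat.card_le_card_of_injective
    (fun x : Subgroup.zpowers ((g : L) ^ q) => (⟨x.1, ?_, ?_⟩ : {d : L // d ∈ T ∧ ¬ p ∣ orderOf d}))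
    (fun x y hxy => by
      have h1 := congrArg (fun a : {d : L // d ∈ T ∧ ¬ p ∣ orderOf d} => a.1) hxy
      exact Subtype.ext h1)
  · exact (Subgroup.zpowers_le.2 (T.pow_mem g.2 q)) x.2
  · intro hpx
    have h1 : orderOf x.1 ∣ n / q := by
      rw [← ho2]
      exact orderOf_dvd_of_mem_zpowers x.2
    exact Nat.not_dvd_ordCompl hp hn0 (hpx.trans h1)

variable (p : ℕ)

/-- the pairs -/
def Xc (h : CycExt i z) (c : F) : Type :=
  {q : Yc h c × (K ⧸ i.range) // q.2 ∈ Tt q.1 ∧ ¬ p ∣ orderOf q.2}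

variable (h c) in
theorem smul_Tt (k : K) (φ : Yc h c) (d : K ⧸ i.range) (hd : d ∈ Tt φ) : d ∈ Tt (k • φ) := by
  obtain ⟨l, rfl⟩ := QuotientGroup.mk_surjective d
  rw [mem_Tt] at hd
  have h1 : k * l * k⁻¹ ∈ St (k • φ) := by
    rw [MulAction.mem_stabilizer_iff, smul_smul, inv_mul_cancel_right, ← smul_smul,
      MulAction.mem_stabilizer_iff.1 hd]
  rw [← mem_Tt] at h1
  have := cyc_Q h
  let _ : CommGroup (K ⧸ i.range) := IsCyclic.commGroup
  have h2 : ((k * l * k⁻¹ : K) : K ⧸ i.range) = (l : K ⧸ i.range) := by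
    rw [QuotientGroup.mk_mul, QuotientGroup.mk_mul, QuotientGroup.mk_inv]
    exact mul_inv_cancel_comm _ _
  rwa [h2] at h1

instance : MulAction K (Xc p h c) where
  smul k q := ⟨(k • q.1.1, q.1.2), smul_Tt h c k q.1.1 q.1.2 q.2.1, q.2.2⟩
  one_smul q := Subtype.ext (Prod.ext (one_smul K q.1.1) rfl)
  mul_smul k l q := Subtype.ext (Prod.ext (mul_smul k l q.1.1) rfl)

theorem smulX (k : K) (q : Xc p h c) : (k • q).1 = (k • q.1.1, q.1.2) := rfl

end Pool.Agent.N966.EWX3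

namespace Pool.Agent.N966.EWX3

open Pool.Agent.Y63.NV Pool.Agent.N20.EW

variable {F : Type} [Field F] {G K : Type} [Group G] [Group K]
variable {i : G →* K} {z : K → F} {h : CycExt i z} {c : F} [hn : i.range.Normal]

/-- `Ψ` is the trace function of an extension of `φ` to the stabiliser -/
def Ok (φ : Yc h c) (Ψ : K → F) : Prop :=
  (∀ x, x ∉ St φ → Ψ x = 0) ∧
  ∃ (V : Type) (_ : AddCommGroup V) (_ : Module F V) (_ : FiniteDimensional F V)
    (ρ : Representation F (St φ) V),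
    Representation.IsIrreducible (ρ.comp (iS φ) : Representation F G V) ∧
    Representation.character (ρ.comp (iS φ) : Representation F G V) = φ.1 ∧
    ∀ x : St φ, Ψ x = ρ.character x

theorem cyc_St (φ : Yc h c) : CycExt (iS φ) (0 : St φ → F) where
  inj a b hab := h.inj (congrArg Subtype.val hab)
  normal := by
    refine ⟨fun x hx k => ?_⟩
    obtain ⟨g, rfl⟩ := hx
    refine ⟨cf i k g, Subtype.ext ?_⟩
    rw [iS_coe, cf_spec]
    rfl
  cyc := by
    have := cyc_Q h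
    have h1 : IsCyclic (Tt φ) := inferInstance
    obtain ⟨t, ht⟩ := h1.exists_generator
    obtain ⟨s, hs, hst⟩ := t.2
    refine ⟨⟨s, hs⟩, fun k => ?_⟩
    obtain ⟨n, hn⟩ := ht ⟨((k : K) : K ⧸ i.range), k, k.2, rfl⟩
    have h2 : ((s : K) : K ⧸ i.range) ^ n = ((k : K) : K ⧸ i.range) := by
      have h3 : (t : K ⧸ i.range) ^ n = ((k : K) : K ⧸ i.range) := congrArg Subtype.val hn
      rw [← hst] at h3
      exact h3
    rw [← QuotientGroup.mk_zpow] at h2
    obtain ⟨g, hg⟩ := QuotientGroup.eq.1 h2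
    refine ⟨n, g, Subtype.ext ?_⟩
    change (k : K) = s ^ n * i g
    rw [hg, mul_inv_cancel_left]
  cl _ _ := rfl
  supp _ _ := rfl

theorem Ok.ex [IsAlgClosed F] [Finite G] [Finite K] (hX : S_X1R) (φ : Yc h c) :
    ∃ Ψ : K → F, Ok φ Ψ := by
  obtain ⟨V, i1, i2, i3, ρ, h1, h2⟩ := φ.2.1
  obtain ⟨ρ', hρ'⟩ := hX F G (St φ) (iS φ) (cyc_St φ) V ρ h1 (by
    intro k x y hxy
    rw [← h2]
    refine (mem_St φ k).1 k.2 x y ?_
    exact congrArg Subtype.val hxy)
  have h3 : (ρ'.comp (iS φ) : Representation F G V) = ρ := by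
    ext g : 1
    exact hρ' g
  refine ⟨fun x => if hx : x ∈ St φ then ρ'.character ⟨x, hx⟩ else 0, fun x hx => dif_neg hx,
    V, i1, i2, i3, ρ', ?_, ?_, fun x => ?_⟩
  · rw [h3]
    exact h1
  · rw [h3]
    exact h2.symm
  · exact dif_pos x.2

theorem mem_smul (k : K) (φ : Yc h c) (x : K) : x ∈ St (k • φ) ↔ k⁻¹ * x * k ∈ St φ := by
  rw [MulAction.mem_stabilizer_iff, MulAction.mem_stabilizer_iff, mul_smul, mul_smul,
    inv_smul_eq_iff]

/-- conjugation from a stabiliser to a stabiliser -/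
def cS (k : K) (φ : Yc h c) : St (k • φ) →* St φ where
  toFun x := ⟨k⁻¹ * x * k, (mem_smul k φ x).1 x.2⟩
  map_one' := Subtype.ext (by simp)
  map_mul' x y := Subtype.ext (by
    change k⁻¹ * (x * y : K) * k = (k⁻¹ * x * k) * (k⁻¹ * y * k)
    group)

theorem Ok.conj [IsAlgClosed F] [Finite G] {φ : Yc h c} {Ψ : K → F} (hΨ : Ok φ Ψ) (k : K) :
    Ok (k • φ) (fun x => Ψ (k⁻¹ * x * k)) := by
  obtain ⟨h0, V, i1, i2, i3, ρ, h1, h2, h3⟩ := hΨ
  refine ⟨fun x hx => h0 _ fun h4 => hx ((mem_smul k φ x).2 h4), V, i1, i2, i3,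
    (ρ.comp (cS k φ) : Representation F (St (k • φ)) V), ?_, ?_, fun x => ?_⟩
  · have h5 : ((ρ.comp (cS k φ)).comp (iS (k • φ)) : Representation F G V) =
        (ρ.comp (iS φ)).comp (cj h.inj k⁻¹).toMonoidHom := by
      ext g : 1
      change ρ (cS k φ (iS (k • φ) g)) = ρ (iS φ (cj h.inj k⁻¹ g))
      refine congrArg ρ (Subtype.ext ?_)
      change k⁻¹ * i g * k = i (cj h.inj k⁻¹ g)
      rw [cj_apply, cf_spec, inv_inv]
    rw [h5]
    exact irr_equiv (cj h.inj k⁻¹) _ h1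
  · funext g
    have h5 : cS k φ (iS (k • φ) g) = iS φ (cj h.inj k⁻¹ g) := by
      refine Subtype.ext ?_
      change k⁻¹ * i g * k = i (cj h.inj k⁻¹ g)
      rw [cj_apply, cf_spec, inv_inv]
    have h6 : (k • φ).1 g = φ.1 (cj h.inj k⁻¹ g) := rfl
    rw [h6, ← h2]
    change LinearMap.trace F V (ρ (cS k φ (iS (k • φ) g))) =
      LinearMap.trace F V (ρ (iS φ (cj h.inj k⁻¹ g)))
    rw [h5]
  · exact h3 (cS k φ x)

theorem Ok.cls {φ : Yc h c} {Ψ : K → F} (hΨ : Ok φ Ψ) {s : K} (hs : s ∈ St φ) (x : K) :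
    Ψ (s * x * s⁻¹) = Ψ x := by
  obtain ⟨h0, V, i1, i2, i3, ρ, h1, h2, h3⟩ := hΨ
  by_cases hx : x ∈ St φ
  · have h4 := h3 (⟨s, hs⟩ * ⟨x, hx⟩ * (⟨s, hs⟩ : St φ)⁻¹)
    rw [ρ.char_conj, ← h3 ⟨x, hx⟩] at h4
    exact h4
  · rw [h0 x hx, h0 _ fun h4 => hx ?_]
    have h5 := (St φ).mul_mem ((St φ).mul_mem ((St φ).inv_mem hs) h4) hs
    have h6 : s⁻¹ * (s * x * s⁻¹) * s = x := by group
    rwa [h6] at h5

theorem family [IsAlgClosed F] [Finite G] [Finite K] (hX : S_X1R) (h : CycExt i z) (c : F) :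
    ∃ Φ : Yc h c → K → F, (∀ φ, Ok φ (Φ φ)) ∧
      ∀ (k : K) (φ : Yc h c) (x : K), Φ (k • φ) x = Φ φ (k⁻¹ * x * k) := by
  have h1 : ∀ φ : Yc h c, ∃ Ψ : K → F, Ok φ Ψ := fun φ => Ok.ex hX φ
  choose Ψ hΨ using h1
  let r : Yc h c → Yc h c := fun φ => (Quotient.mk (MulAction.orbitRel K (Yc h c)) φ).out
  have hr : ∀ φ : Yc h c, ∃ k : K, k • r φ = φ := by
    intro φ
    have h2 : (MulAction.orbitRel K (Yc h c)).r φ (r φ) :=
      (MulAction.orbitRel K (Yc h c)).symm' (Quotient.mk_out (s := MulAction.orbitRel K (Yc h c)) φ)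
    exact h2
  have hrk : ∀ (k : K) (φ : Yc h c), r (k • φ) = r φ := by
    intro k φ
    have h2 : Quotient.mk (MulAction.orbitRel K (Yc h c)) (k • φ) =
        Quotient.mk (MulAction.orbitRel K (Yc h c)) φ := Quotient.sound (s := MulAction.orbitRel K (Yc h c)) ⟨k, rfl⟩
    change (Quotient.mk (MulAction.orbitRel K (Yc h c)) (k • φ)).out = _
    rw [h2]
  choose m hm using hr
  refine ⟨fun φ x => Ψ (r φ) ((m φ)⁻¹ * x * m φ), fun φ => ?_, fun k φ x => ?_⟩
  · have h3 := (hΨ (r φ)).conj (m φ)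
    have h4 : ∀ φ' : Yc h c, m φ • r φ = φ' → Ok φ' (fun x => Ψ (r φ) ((m φ)⁻¹ * x * m φ)) := by
      rintro _ rfl
      exact h3
    exact h4 φ (hm φ)
  · have h5 : (m (k • φ))⁻¹ * k * m φ ∈ St (r φ) := by
      rw [MulAction.mem_stabilizer_iff, mul_smul, mul_smul, hm φ, inv_smul_eq_iff, ← hrk k φ,
        hm (k • φ)]
    have h6 := (hΨ (r φ)).cls h5 ((m φ)⁻¹ * (k⁻¹ * x * k) * m φ)
    change Ψ (r (k • φ)) ((m (k • φ))⁻¹ * x * m (k • φ)) = Ψ (r φ) ((m φ)⁻¹ * (k⁻¹ * x * k) * m φ)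
    rw [← h6, hrk k φ]
    congr 1
    group

end Pool.Agent.N966.EWX3

namespace Pool.Agent.N966.EWX3

open Pool.Agent.Y63.NV Pool.Agent.N20.EW
open Pool.Agent.Y77.NV (pp_coe pp_pp pp_conj pp_mem pexp_modEq reg_pp)

variable {F : Type} [Field F] {G K : Type} [Group G] [Group K]
variable {i : G →* K} {z : K → F} {h : CycExt i z} {c : F} [hn : i.range.Normal]

theorem finY [IsAlgClosed F] [Finite G] (h1 : S_IRR) : Finite (Yc h c) := by
  have : Finite (B77.Irr F G) := B77.irr_fin h1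
  exact Finite.of_injective (fun φ : Yc h c => (⟨φ.1, φ.2.1⟩ : B77.Irr F G))
    (fun a b hab => Subtype.ext (congrArg (fun t : B77.Irr F G => t.1) hab))

/-! ### properties of the extensions -/

theorem Ok.pp {p : ℕ} [Fact p.Prime] [CharP F p] [Finite K] {φ : Yc h c} {Ψ : K → F}
    (hΨ : Ok φ Ψ) {x : K} (hx : x ∈ St φ) : Ψ (pp p x) = Ψ x := by
  obtain ⟨h0, V, i1, i2, i3, ρ, h1, h2, h3⟩ := hΨ
  have h4 := Pool.Agent.Y705.NV.trace_pp p ρ ⟨x, hx⟩
  rw [← h3, ← h3, pp_coe] at h4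
  exact h4

theorem Ok.act_z [IsAlgClosed F] [Finite G] {φ : Yc h c} {Ψ : K → F}
    (hΨ : Ok φ Ψ) {x : K} (hx : x ∈ St φ) :
    ∑ᶠ g : G, z (i g) * Ψ (i g * x) = c * Ψ x := by
  have : Fintype G := Fintype.ofFinite G
  obtain ⟨h0, V, i1, i2, i3, ρ, h1, h2, h3⟩ := hΨ
  set σ : Representation F G V := ρ.comp (iS φ) with hσ
  obtain ⟨a, ha⟩ := burnR σ h1 (ρ ⟨x, hx⟩)
  obtain ⟨e, he⟩ := Pool.Agent.Y914.NV.expand a
  have h4 : ∀ g : G, Ψ (i g * x) = ∑ y, e y * φ.1 (g * y) := by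
    intro g
    have h5 := h3 (iS φ g * ⟨x, hx⟩)
    have h6 : ρ.character (iS φ g * ⟨x, hx⟩) =
        LinearMap.trace F V (σ g * σ.asAlgebraHom (∑ y, MonoidAlgebra.single y (e y))) := by
      rw [← he, ha]
      change LinearMap.trace F V (ρ (iS φ g * ⟨x, hx⟩)) = LinearMap.trace F V (ρ (iS φ g) * ρ ⟨x, hx⟩)
      rw [map_mul]
    rw [h6, trace_expand'] at h5
    change Ψ (i g * x) = _ at h5
    rw [h5]
    refine Finset.sum_congr rfl fun y _ => ?_
    rw [← map_mul, ← h2]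
    rfl
  have h7 : Ψ x = ∑ y, e y * φ.1 y := by
    have h8 := h4 1
    rw [map_one, one_mul] at h8
    rw [h8]
    exact Finset.sum_congr rfl fun y _ => by rw [one_mul]
  rw [finsum_eq_sum_of_fintype, h7, Finset.mul_sum]
  simp only [h4, Finset.mul_sum]
  rw [Finset.sum_comm]
  refine Finset.sum_congr rfl fun y _ => ?_
  have h9 := φ.2.2 y
  rw [finsum_eq_sum_of_fintype] at h9
  calc ∑ g, z (i g) * (e y * φ.1 (g * y)) = e y * ∑ g, z (i g) * φ.1 (g * y) := by
        rw [Finset.mul_sum]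
        exact Finset.sum_congr rfl fun g _ => by ring
    _ = c * (e y * φ.1 y) := by rw [h9]; ring

theorem Ok.indep [IsAlgClosed F] [Finite G] (h1 : S_IRR) {Φ : Yc h c → K → F}
    (hΦ : ∀ φ, Ok φ (Φ φ)) (t : K) (u : Yc h c → F) (hu : ∀ φ, t ∉ St φ → u φ = 0)
    (hs : ∀ g : G, ∑ᶠ φ : Yc h c, u φ * Φ φ (t * i g) = 0) : ∀ φ, u φ = 0 := by
  have := finY (h := h) (c := c) h1
  have : Fintype (Yc h c) := Fintype.ofFinite _
  have h2 := fun φ => (hΦ φ).2
  choose V i1 i2 i3 ρ h3 h4 h5 using h2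
  let s : Finset (Yc h c) := Finset.univ.filter fun φ => t ∈ St φ
  have hms : ∀ φ, φ ∈ s ↔ t ∈ St φ := fun φ => by simp [s]
  have key := tw s V (fun φ => (ρ φ).comp (iS φ)) (fun φ _ => h3 φ)
    (fun φ _ φ' _ hh => Subtype.ext (by rw [← h4 φ, ← h4 φ']; exact hh))
    (fun φ => if ht : t ∈ St φ then ρ φ ⟨t, ht⟩ else 0)
    (fun φ => if ht : t ∈ St φ then ρ φ (⟨t, ht⟩ : St φ)⁻¹ else 0)
    (fun φ hφ => by
      have ht := (hms φ).1 hφ
      rw [dif_pos ht, dif_pos ht, ← map_mul, mul_inv_cancel, map_one])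
    u (fun g => by
      rw [← hs g, finsum_eq_sum_of_fintype]
      refine Finset.sum_subset_zero_on_sdiff (Finset.subset_univ _) (fun φ hφ => ?_)
        fun φ hφ => ?_
      · rw [Finset.mem_sdiff, hms] at hφ
        rw [hu φ hφ.2, zero_mul]
      · have ht := (hms φ).1 hφ
        have h6 := h5 φ (⟨t, ht⟩ * iS φ g)
        change Φ φ (t * i g) = LinearMap.trace F (V φ) (ρ φ (⟨t, ht⟩ * iS φ g)) at h6
        rw [h6, dif_pos ht, map_mul (ρ φ)]
        rfl)
  intro φ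
  by_cases ht : t ∈ St φ
  · exact key φ ((hms φ).2 ht)
  · exact hu φ ht

/-! ### the class functions -/

variable {p : ℕ}

/-- the orbits of the pairs -/
abbrev Om (p : ℕ) (h : CycExt i z) (c : F) : Type := MulAction.orbitRel.Quotient K (Xc p h c)

/-- the coefficient -/
def uu (b : Om p h c → F) (φ : Yc h c) (d : K ⧸ i.range) : F :=
  if hx : d ∈ Tt φ ∧ ¬ p ∣ orderOf d then
    b (Quotient.mk (MulAction.orbitRel K (Xc p h c)) ⟨(φ, d), hx⟩) else 0

theorem uu_smul (b : Om p h c → F) (k : K) (φ : Yc h c) (d : K ⧸ i.range) :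
    uu b (k • φ) d = uu b φ d := by
  unfold uu
  by_cases hx : d ∈ Tt φ ∧ ¬ p ∣ orderOf d
  · have hx' : d ∈ Tt (k • φ) ∧ ¬ p ∣ orderOf d := ⟨smul_Tt h c k φ d hx.1, hx.2⟩
    rw [dif_pos hx, dif_pos hx']
    refine congrArg b (Quotient.sound (s := MulAction.orbitRel K (Xc p h c)) ?_)
    exact ⟨k, rfl⟩
  · have hx' : ¬ (d ∈ Tt (k • φ) ∧ ¬ p ∣ orderOf d) := by
      rintro ⟨h1, h2⟩
      have h3 := smul_Tt h c k⁻¹ (k • φ) d h1
      rw [inv_smul_smul] at h3
      exact hx ⟨h3, h2⟩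
    rw [dif_neg hx, dif_neg hx']

theorem uu_zero (b : Om p h c → F) (φ : Yc h c) (x : K) (hx : x ∉ St φ) :
    uu b φ (x : K ⧸ i.range) = 0 := dif_neg fun h1 => hx ((mem_Tt φ x).1 h1.1)

/-- the class function -/
def Th (Φ : Yc h c → K → F) (b : Om p h c → F) (x : K) : F :=
  ∑ᶠ φ : Yc h c, uu b φ ((pp p x : K) : K ⧸ i.range) * Φ φ (pp p x)

variable [Fact p.Prime] [CharP F p] [IsAlgClosed F] [Finite G] [Finite K]

theorem mk_pp (x : K) (hx : ¬ p ∣ orderOf ((x : K) : K ⧸ i.range)) :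
    ((pp p x : K) : K ⧸ i.range) = x := by
  unfold pp
  rw [QuotientGroup.mk_pow]
  have h1 : orderOf ((x : K) : K ⧸ i.range) ∣ Nat.card K :=
    (orderOf_map_dvd (QuotientGroup.mk' i.range) x).trans (orderOf_dvd_natCard x)
  have h2 := (pexp_modEq p K 0 (orderOf ((x : K) : K ⧸ i.range)) (by simpa using h1) hx).2
  have h3 : ((x : K) : K ⧸ i.range) ^ pexp p K = ((x : K) : K ⧸ i.range) ^ 1 :=
    pow_eq_pow_iff_modEq.2 h2
  rw [h3, pow_one]

theorem reg_mk (x : K) : ¬ p ∣ orderOf ((pp p x : K) : K ⧸ i.range) := fun h1 =>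
  reg_pp x (h1.trans (orderOf_map_dvd (QuotientGroup.mk' i.range) (pp p x)))

theorem F0 {Φ : Yc h c → K → F} (hΦ : ∀ φ, Ok φ (Φ φ)) (b : Om p h c → F) (x : K)
    (hx : ¬ p ∣ orderOf ((x : K) : K ⧸ i.range)) :
    Th Φ b x = ∑ᶠ φ : Yc h c, uu b φ (x : K ⧸ i.range) * Φ φ x := by
  unfold Th
  refine finsum_congr fun φ => ?_
  rw [mk_pp x hx]
  by_cases hs : x ∈ St φ
  · rw [(hΦ φ).pp hs]
  · rw [uu_zero b φ x hs, zero_mul, zero_mul]

theorem Th_cls {Φ : Yc h c → K → F}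
    (hc : ∀ (k : K) (φ : Yc h c) (x : K), Φ (k • φ) x = Φ φ (k⁻¹ * x * k)) (b : Om p h c → F) :
    IsClassFun (Th Φ b) := by
  intro k x
  unfold Th
  rw [pp_conj]
  have h1 : ((k * pp p x * k⁻¹ : K) : K ⧸ i.range) = ((pp p x : K) : K ⧸ i.range) := by
    have := cyc_Q h
    let _ : CommGroup (K ⧸ i.range) := IsCyclic.commGroup
    rw [QuotientGroup.mk_mul, QuotientGroup.mk_mul, QuotientGroup.mk_inv]
    exact mul_inv_cancel_comm _ _
  rw [h1, ← finsum_comp_equiv (MulAction.toPerm k : Equiv.Perm (Yc h c))]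
  refine finsum_congr fun φ => ?_
  rw [MulAction.toPerm_apply, uu_smul, hc]
  congr 2
  group

theorem Th_pp (Φ : Yc h c → K → F) (b : Om p h c → F) (x : K) : Th Φ b (pp p x) = Th Φ b x := by
  unfold Th
  rw [pp_pp]

theorem Th_inj (h1 : S_IRR) {Φ : Yc h c → K → F} (hΦ : ∀ φ, Ok φ (Φ φ)) (b : Om p h c → F)
    (hb : Th Φ b = 0) : b = 0 := by
  funext ω
  obtain ⟨⟨⟨φ, d⟩, hq⟩, rfl⟩ := Quotient.exists_rep ω
  obtain ⟨t, ht, rfl⟩ := hq.1
  have h2 := Ok.indep h1 hΦ t (fun φ => uu b φ (t : K ⧸ i.range))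
    (fun φ' h' => uu_zero b φ' t h') (fun g => by
      have h3 : ((t * i g : K) : K ⧸ i.range) = (t : K ⧸ i.range) := by
        have h9 : ((i g : K) : K ⧸ i.range) = 1 :=
          (QuotientGroup.eq_one_iff (i g)).2 (MonoidHom.mem_range.2 ⟨g, rfl⟩)
        rw [QuotientGroup.mk_mul, h9, mul_one]
      have h4 := F0 hΦ b (t * i g) (by rw [h3]; exact hq.2)
      rw [h3, hb] at h4
      exact h4.symm) φ
  have h5 : uu b φ (t : K ⧸ i.range) =
      b (Quotient.mk (MulAction.orbitRel K (Xc p h c)) ⟨(φ, (t : K ⧸ i.range)), hq⟩) := dif_pos hq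
  rw [h5] at h2
  exact h2

theorem Th_z0 (h1 : S_IRR) {Φ : Yc h c → K → F} (hΦ : ∀ φ, Ok φ (Φ φ)) (b : Om p h c → F) (x : K)
    (hx : ¬ p ∣ orderOf ((x : K) : K ⧸ i.range)) :
    ∑ᶠ g : K, z g * Th Φ b (g * x) = c * Th Φ b x := by
  have := finY (h := h) (c := c) h1
  have : Fintype (Yc h c) := Fintype.ofFinite _
  have : Fintype G := Fintype.ofFinite G
  have : Fintype K := Fintype.ofFinite K
  have e1 : ∑ᶠ g : K, z g * Th Φ b (g * x) = ∑ g : G, z (i g) * Th Φ b (i g * x) := by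
    rw [finsum_eq_sum_of_fintype]
    refine (Fintype.sum_of_injective i h.inj _ _ (fun g hg => ?_) fun g => rfl).symm
    rw [h.supp g fun ⟨y, hy⟩ => hg ⟨y, hy⟩, zero_mul]
  have e2 : ∀ g : G, Th Φ b (i g * x) = ∑ φ : Yc h c, uu b φ (x : K ⧸ i.range) * Φ φ (i g * x) := by
    intro g
    have h3 : ((i g * x : K) : K ⧸ i.range) = (x : K ⧸ i.range) := by
      have h9 : ((i g : K) : K ⧸ i.range) = 1 :=
        (QuotientGroup.eq_one_iff (i g)).2 (MonoidHom.mem_range.2 ⟨g, rfl⟩)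
      rw [QuotientGroup.mk_mul, h9, one_mul]
    rw [F0 hΦ b (i g * x) (by rw [h3]; exact hx), h3, finsum_eq_sum_of_fintype]
  rw [e1, F0 hΦ b x hx, finsum_eq_sum_of_fintype, Finset.mul_sum]
  simp only [e2, Finset.mul_sum]
  rw [Finset.sum_comm]
  refine Finset.sum_congr rfl fun φ _ => ?_
  by_cases hs : x ∈ St φ
  · have h4 := (hΦ φ).act_z hs
    rw [finsum_eq_sum_of_fintype] at h4
    calc ∑ g, z (i g) * (uu b φ (x : K ⧸ i.range) * Φ φ (i g * x)) =
        uu b φ (x : K ⧸ i.range) * ∑ g, z (i g) * Φ φ (i g * x) := by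
          rw [Finset.mul_sum]
          exact Finset.sum_congr rfl fun g _ => by ring
      _ = c * (uu b φ (x : K ⧸ i.range) * Φ φ x) := by rw [h4]; ring
  · rw [uu_zero b φ x hs, zero_mul, mul_zero]
    exact Finset.sum_eq_zero fun g _ => by rw [zero_mul, mul_zero]

end Pool.Agent.N966.EWX3

namespace Pool.Agent.N966.EWX3

open Pool.Agent.Y63.NV Pool.Agent.N20.EW
open Pool.Agent.Y77.NV (pp_coe pp_pp pp_conj pp_mem pexp_modEq reg_pp)

variable {F : Type} [Field F] {G K : Type} [Group G] [Group K]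
variable {i : G →* K} {z : K → F} {h : CycExt i z} {c : F} [hn : i.range.Normal]

/-- the span of the irreducible traces of `K` on which `z` acts as `c` -/
def Ws (z : K → F) (c : F) : Submodule F (K → F) :=
  Submodule.span F (Set.range fun χ : {χ : K → F // IsIrrTrace χ ∧
    ∀ x : K, ∑ᶠ g : K, z g * χ (g * x) = c * χ x} => χ.1)

theorem Ws_le [IsAlgClosed F] [Finite K] (h1 : S_IRR) (z : K → F) (c : F) :
    Module.finrank F (Ws z c) ≤ Lz z c := by
  have : Finite (B77.Irr F K) := B77.irr_fin h1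
  have : Finite {χ : K → F // IsIrrTrace χ ∧ ∀ x : K, ∑ᶠ g : K, z g * χ (g * x) = c * χ x} :=
    Finite.of_injective (fun φ => (⟨φ.1, φ.2.1⟩ : B77.Irr F K))
      (fun a b hab => Subtype.ext (congrArg (fun t : B77.Irr F K => t.1) hab))
  have : Fintype {χ : K → F // IsIrrTrace χ ∧ ∀ x : K, ∑ᶠ g : K, z g * χ (g * x) = c * χ x} :=
    Fintype.ofFinite _
  unfold Lz
  rw [Nat.card_eq_fintype_card]
  exact finrank_range_le_card (R := F) fun χ : {χ : K → F // IsIrrTrace χ ∧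
    ∀ x : K, ∑ᶠ g : K, z g * χ (g * x) = c * χ x} => χ.1

variable {p : ℕ} [Fact p.Prime] [CharP F p] [IsAlgClosed F] [Finite G] [Finite K]

theorem Th_mem (h1 : S_IRR) (h2 : S_SPAN) (h3 : S_SCHUR) (h4 : S_PPT) {Φ : Yc h c → K → F}
    (hΦ : ∀ φ, Ok φ (Φ φ))
    (hc : ∀ (k : K) (φ : Yc h c) (x : K), Φ (k • φ) x = Φ φ (k⁻¹ * x * k)) (b : Om p h c → F) :
    Th Φ b ∈ Ws z c := by
  have : Finite (B77.Irr F K) := B77.irr_fin h1
  have : Fintype (B77.Irr F K) := Fintype.ofFinite _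
  obtain ⟨a, ha⟩ := B77.coef_ex p h2 (Th Φ b) (Th_cls hc b) (fun x => Th_pp Φ b x)
  have hB : ∀ χ : B77.Irr F K, ∃ l : F, ∀ x : K, ∑ᶠ g : K, z g * χ.1 (g * x) = l * χ.1 x := by
    intro χ
    obtain ⟨-, B, -, hB⟩ := h3 F K χ.1 χ.2
    exact ⟨B z, hB z h.cl⟩
  choose l hl using hB
  have hz : ∀ x : K, ∑ᶠ g : K, z g * Th Φ b (g * x) = ∑ χ : B77.Irr F K, (a χ * l χ) * χ.1 x := by
    intro x
    have : Fintype K := Fintype.ofFinite K
    rw [finsum_eq_sum_of_fintype]
    simp only [ha, Finset.mul_sum]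
    rw [Finset.sum_comm]
    refine Finset.sum_congr rfl fun χ _ => ?_
    have h5 := hl χ x
    rw [finsum_eq_sum_of_fintype] at h5
    calc ∑ g : K, z g * (a χ * χ.1 (g * x)) = a χ * ∑ g : K, z g * χ.1 (g * x) := by
          rw [Finset.mul_sum]
          exact Finset.sum_congr rfl fun g _ => by ring
      _ = a χ * l χ * χ.1 x := by rw [h5]; ring
  have h6 : (fun χ => a χ * l χ) = fun χ => c * a χ := by
    refine B77.coef_unique h1 _ _ fun x => ?_
    have h7 : ∀ y : K, ∑ χ : B77.Irr F K, (a χ * l χ) * χ.1 y =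
        ∑ χ : B77.Irr F K, (a χ * l χ) * χ.1 (pp p y) := fun y =>
      Finset.sum_congr rfl fun χ _ => by rw [h4 p F K χ.1 χ.2 y]
    have h8 : ∀ y : K, ∑ χ : B77.Irr F K, (c * a χ) * χ.1 y =
        c * Th Φ b y := fun y => by
      rw [ha, Finset.mul_sum]
      exact Finset.sum_congr rfl fun χ _ => by ring
    rw [h7, ← hz, h8, ← Th_pp Φ b x]
    exact Th_z0 h1 hΦ b (pp p x) (reg_mk x)
  have h9 : Th Φ b = ∑ χ : B77.Irr F K, a χ • χ.1 := by
    funext x
    rw [ha, Finset.sum_apply]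
    rfl
  rw [h9]
  refine Submodule.sum_mem _ fun χ _ => ?_
  by_cases ha0 : a χ = 0
  · rw [ha0, zero_smul]
    exact Submodule.zero_mem _
  · refine Submodule.smul_mem _ _ (Submodule.subset_span ⟨⟨χ.1, χ.2, fun x => ?_⟩, rfl⟩)
    have h10 := congrFun h6 χ
    have h11 : l χ = c := mul_left_cancel₀ ha0 (by rw [h10, mul_comm])
    rw [hl, h11]

theorem card_Om_le (h1 : S_IRR) (h2 : S_SPAN) (h3 : S_SCHUR) (h4 : S_PPT) (hX : S_X1R)
    (h : CycExt i z) (c : F) [Finite (Om p h c)] : Nat.card (Om p h c) ≤ Lz z c := by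
  have : Fintype (Om p h c) := Fintype.ofFinite _
  have := finY (h := h) (c := c) h1
  have : Fintype (Yc h c) := Fintype.ofFinite _
  have : Fintype K := Fintype.ofFinite K
  obtain ⟨Φ, hΦ, hc⟩ := family hX h c
  have huadd : ∀ (b b' : Om p h c → F) φ d, uu (b + b') φ d = uu b φ d + uu b' φ d := by
    intro b b' φ d
    unfold uu
    split_ifs
    · rfl
    · rw [add_zero]
  have husmul : ∀ (a : F) (b : Om p h c → F) φ d, uu (a • b) φ d = a * uu b φ d := by
    intro a b φ d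
    unfold uu
    split_ifs
    · rfl
    · rw [mul_zero]
  let Θ : (Om p h c → F) →ₗ[F] Ws z c :=
    { toFun := fun b => ⟨Th Φ b, Th_mem h1 h2 h3 h4 hΦ hc b⟩
      map_add' := fun b b' => Subtype.ext (funext fun x => by
        change Th Φ (b + b') x = Th Φ b x + Th Φ b' x
        unfold Th
        rw [finsum_eq_sum_of_fintype, finsum_eq_sum_of_fintype, finsum_eq_sum_of_fintype,
          ← Finset.sum_add_distrib]
        exact Finset.sum_congr rfl fun φ _ => by rw [huadd, add_mul])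
      map_smul' := fun a b => Subtype.ext (funext fun x => by
        change Th Φ (a • b) x = a * Th Φ b x
        unfold Th
        rw [finsum_eq_sum_of_fintype, finsum_eq_sum_of_fintype, Finset.mul_sum]
        exact Finset.sum_congr rfl fun φ _ => by rw [husmul, mul_assoc]) }
  have hinj : Function.Injective Θ := by
    rw [injective_iff_map_eq_zero]
    intro b hb
    exact Th_inj h1 hΦ b (congrArg Subtype.val hb)
  have h5 := LinearMap.finrank_le_finrank_of_injective hinj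
  rw [Module.finrank_fintype_fun_eq_card, ← Nat.card_eq_fintype_card] at h5
  exact h5.trans (Ws_le h1 z c)

omit [CharP F p] in
theorem burnside (h1 : S_IRR) (h : CycExt i z) (c : F) :
    ∑ᶠ φ : Yc h c, pc p (tt i φ.1) ≤ i.range.index * Nat.card (Om p h c) := by
  have := finY (h := h) (c := c) h1
  have : Fintype (Yc h c) := Fintype.ofFinite _
  have : Finite (Xc p h c) := inferInstanceAs (Finite {q : Yc h c × (K ⧸ i.range) //
    q.2 ∈ Tt q.1 ∧ ¬ p ∣ orderOf q.2})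
  have : Fintype (Xc p h c) := Fintype.ofFinite _
  have e1 := Nat.card_congr (MulAction.sigmaFixedByEquivOrbitsProdGroup K (Xc p h c))
  rw [Nat.card_prod] at e1
  have e2 : Nat.card (Σ k : K, MulAction.fixedBy (Xc p h c) k) =
      Nat.card (Σ q : Xc p h c, St q.1.1) := by
    refine Nat.card_congr
      { toFun := fun q => ⟨q.2.1, q.1, ?_⟩
        invFun := fun q => ⟨q.2.1, q.1, ?_⟩
        left_inv := fun _ => rfl
        right_inv := fun _ => rfl }
    · exact congrArg (fun r : Xc p h c => r.1.1) q.2.2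
    · exact Subtype.ext (Prod.ext q.2.2 rfl)
  have e3 : Nat.card (Σ q : Xc p h c, St q.1.1) =
      Nat.card (Σ φ : Yc h c, {d : K ⧸ i.range // d ∈ Tt φ ∧ ¬ p ∣ orderOf d} × St φ) := by
    refine Nat.card_congr
      { toFun := fun q => ⟨q.1.1.1, ⟨q.1.1.2, q.1.2⟩, q.2⟩
        invFun := fun q => ⟨⟨(q.1, q.2.1.1), q.2.1.2⟩, q.2.2⟩
        left_inv := fun _ => rfl
        right_inv := fun _ => rfl }
  have e4 : ∀ φ : Yc h c, pc p (tt i φ.1) * Nat.card G ≤
      Nat.card ({d : K ⧸ i.range // d ∈ Tt φ ∧ ¬ p ∣ orderOf d} × St φ) := by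
    intro φ
    have := cyc_Q h
    have h5 := card_reg p (Tt φ) inferInstance
    rw [Nat.card_prod, card_St, tt_eq]
    unfold pc
    calc _ = (Nat.card (Tt φ) / p ^ (Nat.card (Tt φ)).factorization p) *
          (Nat.card (Tt φ) * Nat.card G) := by ring
      _ ≤ _ := Nat.mul_le_mul_right _ h5
  have e5 : (∑ᶠ φ : Yc h c, pc p (tt i φ.1)) * Nat.card G ≤ Nat.card (Om p h c) * Nat.card K := by
    rw [← e1, e2, e3, Nat.card_sigma, finsum_eq_sum_of_fintype, Finset.sum_mul]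
    exact Finset.sum_le_sum fun φ _ => e4 φ
  have e6 : Nat.card K = i.range.index * Nat.card G := by
    rw [Nat.card_congr (MonoidHom.ofInjective h.inj).toEquiv, mul_comm]
    exact i.range.card_mul_index.symm
  rw [e6] at e5
  refine Nat.le_of_mul_le_mul_right (c := Nat.card G) ?_ Nat.card_pos
  calc _ ≤ _ := e5
    _ = _ := by ring

end Pool.Agent.N966.EWX3

namespace Pool.Agent.N966.EW

open Pool.Agent.Y63.NV Pool.Agent.N20.EW Pool.Agent.N966.EWX3

/-- X3: the lower bound for the number of irreducible characters of a cyclic extension -/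
theorem X3 (h1 : S_IRR) (h2 : S_SPAN) (h3 : S_SCHUR) (h4 : S_PPT) (hX : S_X1R) : S_X3 := by
  intro p _ F _ _ _ G K _ _ _ _ i z h c
  have := h.normal
  have := finY (h := h) (c := c) h1
  have : Finite (Xc p h c) := inferInstanceAs (Finite {q : Yc h c × (K ⧸ i.range) //
    q.2 ∈ Tt q.1 ∧ ¬ p ∣ orderOf q.2})
  have : Finite (Om p h c) := Quotient.finite _
  exact (burnside (p := p) h1 h c).trans
    (Nat.mul_le_mul_left _ (card_Om_le (p := p) h1 h2 h3 h4 hX h c))

end Pool.Agent.N966.EW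


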