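import Pool.Agent.N208.BT.Stm

/-!
# BT/EV: an isometry of signature `(1, n)` with large trace is hyperbolic
-/

set_option autoImplicit false

noncomputable section

namespace Pool.Agent.N966.BTEV

open Matrix Pool.Agent.N208.BT

variable {n : ℕ}

theorem hf_add_left (x x' y : V n) : hf (x + x') y = hf x y + hf x' y := by
  unfold hf
  simp only [Pi.add_apply, add_mul, Finset.sum_add_distrib]
  ring

theorem hf_smul_left (a : ℂ) (x y : V n) : hf (a • x) y = a * hf x y := by
  unfold hf
  simp only [Pi.smul_apply, smul_eq_mul, mul_sub, Finset.mul_sum, mul_assoc]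

theorem hf_symm (x y : V n) : hf y x = star (hf x y) := by
  unfold hf
  simp only [star_sub, star_mul', star_star, star_sum]
  congr 1
  · ring
  · exact Finset.sum_congr rfl fun i _ => by ring

theorem hf_add_right (x y y' : V n) : hf x (y + y') = hf x y + hf x y' := by
  rw [hf_symm (y + y') x, hf_add_left, star_add, ← hf_symm, ← hf_symm]

theorem hf_smul_right (a : ℂ) (x y : V n) : hf x (a • y) = star a * hf x y := by
  rw [hf_symm (a • y) x, hf_smul_left, star_mul', ← hf_symm]

theorem hf_neg_left (x y : V n) : hf (-x) y = - hf x y := by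
  rw [← neg_one_smul ℂ, hf_smul_left]; ring

theorem hf_sub_left (x x' y : V n) : hf (x - x') y = hf x y - hf x' y := by
  rw [sub_eq_add_neg, hf_add_left, hf_neg_left]; ring

theorem hf_neg_right (x y : V n) : hf x (-y) = - hf x y := by
  rw [← neg_one_smul ℂ, hf_smul_right]; simp

theorem hf_sub_right (x y y' : V n) : hf x (y - y') = hf x y - hf x y' := by
  rw [sub_eq_add_neg, hf_add_right, hf_neg_right]; ring

theorem hf_zero_left (y : V n) : hf 0 y = 0 := by
  rw [← zero_smul ℂ (0 : V n), hf_smul_left, zero_mul]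

theorem hf_zero_right (x : V n) : hf x 0 = 0 := by
  rw [hf_symm 0 x, hf_zero_left, star_zero]

/-- the form is nondegenerate -/
theorem hf_nondeg {x : V n} (h : ∀ y, hf y x = 0) : x = 0 := by
  funext i
  refine Fin.cases ?_ (fun j => ?_) i
  · have h1 := h (Pi.single 0 1)
    unfold hf at h1
    simp only [Pi.single_eq_same, one_mul] at h1
    rw [Finset.sum_eq_zero] at h1
    · simpa using h1
    · intro j _
      rw [Pi.single_eq_of_ne (Fin.succ_ne_zero j), zero_mul]
  · have h1 := h (Pi.single j.succ 1)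
    unfold hf at h1
    rw [Pi.single_eq_of_ne (Fin.succ_ne_zero j).symm, zero_mul, Finset.sum_eq_single j] at h1
    · simpa using h1
    · intro k _ hk
      rw [Pi.single_eq_of_ne (fun h => hk (Fin.succ_injective _ h)), zero_mul]
    · intro h
      exact absurd (Finset.mem_univ _) h

theorem hf_self (x : V n) :
    hf x x = ((‖x 0‖ ^ 2 - ∑ i : Fin n, ‖x i.succ‖ ^ 2 : ℝ) : ℂ) := by
  unfold hf
  push_cast
  congr 1
  · exact Complex.mul_conj' (x 0)
  · exact Finset.sum_congr rfl fun i _ => Complex.mul_conj' (x i.succ)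

/-- the signature -/
theorem signature {x y : V n} (hx0 : x ≠ 0) (hx : hf x x = 0) (hyx : hf y x = 0)
    (hy : hf y y = 0) : ∃ c : ℂ, y = c • x := by
  have hx1 : x 0 ≠ 0 := by
    intro h0
    apply hx0
    rw [hf_self, h0, norm_zero] at hx
    have h1 : (0 : ℝ) ^ 2 - ∑ i : Fin n, ‖x i.succ‖ ^ 2 = 0 := by exact_mod_cast hx
    have h2 : ∑ i : Fin n, ‖x i.succ‖ ^ 2 = 0 := by linarith
    rw [Finset.sum_eq_zero_iff_of_nonneg (fun i _ => by positivity)] at h2
    funext i
    refine Fin.cases h0 (fun j => ?_) i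
    have h3 := h2 j (Finset.mem_univ _)
    simpa using h3
  have hxy : hf x y = 0 := by rw [hf_symm y x, hyx, star_zero]
  refine ⟨y 0 / x 0, ?_⟩
  obtain ⟨z, hz⟩ : ∃ z : V n, z = y - (y 0 / x 0) • x := ⟨_, rfl⟩
  have hz0 : z 0 = 0 := by
    rw [hz, Pi.sub_apply, Pi.smul_apply, smul_eq_mul, div_mul_cancel₀ _ hx1, sub_self]
  have hzz : hf z z = 0 := by
    rw [hz, hf_sub_left, hf_sub_right, hf_sub_right, hf_smul_left, hf_smul_left, hf_smul_right,
      hf_smul_right, hy, hyx, hxy, hx]
    ring
  rw [hf_self, hz0, norm_zero] at hzz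
  have h1 : (0 : ℝ) ^ 2 - ∑ i : Fin n, ‖z i.succ‖ ^ 2 = 0 := by exact_mod_cast hzz
  have h2 : ∑ i : Fin n, ‖z i.succ‖ ^ 2 = 0 := by linarith
  rw [Finset.sum_eq_zero_iff_of_nonneg (fun i _ => by positivity)] at h2
  have hz' : z = 0 := by
    funext i
    refine Fin.cases hz0 (fun j => ?_) i
    have h3 := h2 j (Finset.mem_univ _)
    simpa using h3
  rw [hz'] at hz
  exact (sub_eq_zero.1 hz.symm)

/-- an eigenvector -/
theorem exists_eig {g : M n} {mu : ℂ} (h : (Matrix.scalar (Fin (n + 1)) mu - g).det = 0) :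
    ∃ v : V n, v ≠ 0 ∧ g *ᵥ v = mu • v := by
  obtain ⟨v, hv0, hv⟩ := Matrix.exists_mulVec_eq_zero_iff.2 h
  refine ⟨v, hv0, ?_⟩
  rw [Matrix.sub_mulVec, sub_eq_zero] at hv
  rw [← hv]
  funext i
  simp [Matrix.scalar_apply, Matrix.mulVec_diagonal]

theorem main : S_EV := by
  intro n g hg htr
  -- an eigenvalue of absolute value more than one
  obtain ⟨lam, hlam, hl1⟩ : ∃ lam ∈ g.charpoly.roots, 1 < ‖lam‖ := by
    by_contra hcon
    push Not at hcon
    have hcard : Multiset.card g.charpoly.roots = n + 1 := by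
      rw [IsAlgClosed.card_roots_eq_natDegree, Matrix.charpoly_natDegree_eq_dim, Fintype.card_fin]
    have h1 : ‖g.trace‖ ≤ (n : ℝ) + 1 := by
      rw [Matrix.trace_eq_sum_roots_charpoly]
      refine (norm_multiset_sum_le _).trans ?_
      have h2 : (g.charpoly.roots.map fun x => ‖x‖).sum ≤
          Multiset.card (g.charpoly.roots.map fun x => ‖x‖) • (1 : ℝ) :=
        Multiset.sum_le_card_nsmul _ _ (fun x hx => by
          rw [Multiset.mem_map] at hx
          obtain ⟨y, hy, rfl⟩ := hx
          exact hcon y hy)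
      rw [Multiset.card_map, hcard] at h2
      simpa using h2
    linarith
  have hroot := (Polynomial.mem_roots'.1 hlam).2
  rw [Polynomial.IsRoot.def, Matrix.eval_charpoly] at hroot
  obtain ⟨u, hu0, hu⟩ := exists_eig hroot
  have hlam0 : lam ≠ 0 := by
    rintro rfl
    rw [norm_zero] at hl1
    linarith
  have huu : hf u u = 0 := by
    have h1 := hg u u
    rw [hu, hf_smul_left, hf_smul_right] at h1
    have h2 : (lam * star lam - 1) * hf u u = 0 := by linear_combination h1
    rcases mul_eq_zero.1 h2 with h3 | h3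
    · exfalso
      have h4 : lam * star lam = ((‖lam‖ ^ 2 : ℝ) : ℂ) := by
        push_cast
        exact Complex.mul_conj' lam
      rw [h4, sub_eq_zero] at h3
      have h5 : ‖lam‖ ^ 2 = 1 := by exact_mod_cast h3
      nlinarith
    · exact h3
  -- the other eigenvalue
  obtain ⟨mu, hmu⟩ : ∃ mu : ℂ, mu = (star lam)⁻¹ := ⟨_, rfl⟩
  have hstar0 : star lam ≠ 0 := by simpa using hlam0
  have hmun : ‖mu‖ < 1 := by
    rw [hmu, norm_inv, norm_star]
    exact inv_lt_one_of_one_lt₀ hl1
  have horth : ∀ x : V n, hf ((Matrix.scalar (Fin (n + 1)) mu - g) *ᵥ x) u = 0 := by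
    intro x
    have h1 : (Matrix.scalar (Fin (n + 1)) mu) *ᵥ x = mu • x := by
      funext i
      simp [Matrix.scalar_apply, Matrix.mulVec_diagonal]
    rw [Matrix.sub_mulVec, h1, hf_sub_left, hf_smul_left]
    have h2 := hg x u
    rw [hu, hf_smul_right] at h2
    rw [hmu]
    field_simp
    linear_combination -h2
  have hdet : (Matrix.scalar (Fin (n + 1)) mu - g).det = 0 := by
    by_contra hne
    apply hu0
    apply hf_nondeg
    intro y
    have hunit : IsUnit (Matrix.scalar (Fin (n + 1)) mu - g).det := isUnit_iff_ne_zero.2 hne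
    have h1 := horth ((Matrix.scalar (Fin (n + 1)) mu - g)⁻¹ *ᵥ y)
    rw [Matrix.mulVec_mulVec, Matrix.mul_nonsing_inv _ hunit, Matrix.one_mulVec] at h1
    exact h1
  obtain ⟨v', hv0, hv'⟩ := exists_eig hdet
  have hvv : hf v' v' = 0 := by
    have h1 := hg v' v'
    rw [hv', hf_smul_left, hf_smul_right] at h1
    have h2 : (mu * star mu - 1) * hf v' v' = 0 := by linear_combination h1
    rcases mul_eq_zero.1 h2 with h3 | h3
    · exfalso
      have h4 : mu * star mu = ((‖mu‖ ^ 2 : ℝ) : ℂ) := by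
        push_cast
        exact Complex.mul_conj' mu
      rw [h4, sub_eq_zero] at h3
      have h5 : ‖mu‖ ^ 2 = 1 := by exact_mod_cast h3
      have := norm_nonneg mu
      nlinarith
    · exact h3
  have huv : hf u v' ≠ 0 := by
    intro h0
    have h1 : hf v' u = 0 := by rw [hf_symm u v', h0, star_zero]
    obtain ⟨c, hc⟩ := signature hu0 huu h1 hvv
    have hc0 : c ≠ 0 := by
      rintro rfl
      rw [zero_smul] at hc
      exact hv0 hc
    have h2 : c • (lam • u) = mu • (c • u) := by
      rw [← hc, ← hv', hc, Matrix.mulVec_smul, hu]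
    have h3 : (c * (lam - mu)) • u = 0 := by
      have h4 : (c * (lam - mu)) • u = c • (lam • u) - mu • (c • u) := by
        rw [smul_smul, smul_smul, ← sub_smul]
        congr 1
        ring
      rw [h4, h2, sub_self]
    rcases smul_eq_zero.1 h3 with h4 | h4
    · have h5 := (mul_eq_zero.1 h4).resolve_left hc0
      rw [sub_eq_zero] at h5
      rw [h5] at hl1
      linarith
    · exact hu0 h4
  have hs : star (hf u v') ≠ 0 := by simpa using huv
  refine ⟨lam, u, (star (hf u v'))⁻¹ • v', ⟨hg, hl1, hu, ?_, huu, ?_, ?_⟩⟩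
  · rw [Matrix.mulVec_smul, hv', ← hmu, smul_comm]
  · rw [hf_smul_left, hf_smul_right, hvv]
    ring
  · rw [hf_smul_right, star_inv₀, star_star, inv_mul_cancel₀ huv]

end Pool.Agent.N966.BTEV
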