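import Pool.Agent.N208.LC.Stm2
import Pool.Agent.N208.BT.AllG
import Pool.Agent.N887.BTC

set_option autoImplicit false
set_option linter.unusedSectionVars false

/-!
# Project LC (helper208), part CPT (helper966): elements supported at one place
-/

open Module Matrix

noncomputable section

namespace Pool.Agent.N966.LCCPT

open Pool.Agent.Y102 Pool.Agent.Y102.AbVar Pool.Agent.W516.DR Pool.Agent.H204R3.GP
  Pool.Agent.W516.KC Pool.Agent.H204R3.SP Pool.Agent.TH119.MX Pool.Agent.R917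
  Pool.Agent.N208.AM Pool.Agent.N208.AD Pool.Agent.N208.BT Pool.Agent.N208.LC

variable {g : ℕ} {A : AbVar g} {z : Module.End ℚ A.H1} {Sg : Finset ℝ}

/-- `z` is a skew endomorphism of the abelian variety -/
structure ZZ (A : AbVar g) (z : Module.End ℚ A.H1) : Prop where
  mem : z ∈ A.EA
  skew : IsSkew A.om z

theorem zz (H : HL A z Sg) : ZZ A z := by
  obtain ⟨al, hal⟩ := H.ne
  exact ⟨(H.hg.hq al hal).mem, (H.hg.hq al hal).skew⟩

theorem PF_skew (h : ZZ A z) (u v : Fin g → ℂ) :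
    A.PF (A.ext z u) v = -A.PF u (A.ext z v) := by
  rw [A.PF_apply, A.PF_apply, N887.BTC.E_skew h.skew, N887.BTC.EA_smul h.mem]

theorem mem_V0 {b : ℝ} {y : Fin g → ℂ} :
    y ∈ V0 A z b ↔ A.ext z (A.ext z y) + (b ^ 2) • y = 0 := N887.BTC.mem_V0

theorem V0_smul (h : ZZ A z) {b : ℝ} {y : Fin g → ℂ} (hy : y ∈ V0 A z b) (c : ℂ) :
    c • y ∈ V0 A z b := by
  rw [mem_V0] at hy ⊢
  rw [N887.BTC.EA_smul h.mem, N887.BTC.EA_smul h.mem, smul_comm, ← smul_add, hy, smul_zero]

theorem V0_spE (h : ZZ A z) {b : ℝ} {X : Module.End ℝ (Fin g → ℂ)}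
    (hX : X ∈ spE A (A.NA : Set (Module.End ℚ A.H1))) {y : Fin g → ℂ} (hy : y ∈ V0 A z b) :
    X y ∈ V0 A z b := by
  rw [mem_V0] at hy ⊢
  rw [← N887.BTC.comm_EA h.mem hX, ← N887.BTC.comm_EA h.mem hX, ← map_smul, ← map_add, hy,
    map_zero]

theorem V0_neg {b : ℝ} : V0 A z (-b) = V0 A z b := by
  unfold V0
  rw [neg_sq]

theorem eig_sq (h : ZZ A z) {b : ℝ} {x : Fin g → ℂ} (hx : Eig A z b x) :
    A.ext z (A.ext z x) = -((b ^ 2) • x) := by
  unfold Eig at hx
  rw [hx, N887.BTC.EA_smul h.mem, hx, smul_smul]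
  have h1 : ((b : ℂ) * Complex.I) * ((b : ℂ) * Complex.I) = -((b ^ 2 : ℝ) : ℂ) := by
    push_cast
    linear_combination (b : ℂ) ^ 2 * Complex.I_mul_I
  rw [h1, neg_smul]
  rfl

theorem eig_V0 (h : ZZ A z) {b : ℝ} {x : Fin g → ℂ} (hx : Eig A z b x) : x ∈ V0 A z b := by
  rw [mem_V0, eig_sq h hx, neg_add_cancel]

theorem eig_smul (h : ZZ A z) {b : ℝ} {x : Fin g → ℂ} (hx : Eig A z b x) (c : ℂ) :
    Eig A z b (c • x) := by
  unfold Eig at *
  rw [N887.BTC.EA_smul h.mem, hx, smul_comm]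

/-- two real operators which agree on the eigenvectors are equal -/
theorem ext_eig (h : ZZ A z) {f f' : Module.End ℝ (Fin g → ℂ)}
    (hf : ∀ (b : ℝ) (x : Fin g → ℂ), Eig A z b x → f x = f' x) : f = f' := by
  classical
  let P : (Fin g → ℂ) →ₗ[ℂ] (Fin g → ℂ) :=
    { toFun := fun u => Complex.I • A.ext z u
      map_add' := fun u v => by rw [map_add, smul_add]
      map_smul' := fun c u => by rw [N887.BTC.EA_smul h.mem, RingHom.id_apply, smul_comm] }
  have hP : ∀ u, P u = Complex.I • A.ext z u := fun u => rfl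
  obtain ⟨e, r, he⟩ := A.exists_eigenbasis (n := 1) (fun _ => P) (fun _ _ => rfl) (by
    intro _ u v
    rw [hP, hP, (A.E_I _ _).2, N887.BTC.E_skew h.skew, N887.BTC.EA_smul h.mem, neg_neg])
  have hE : ∀ k, Eig A z (-(r 0 k)) (e k) := by
    intro k
    have h1 := he 0 k
    change P (e k) = _ at h1
    rw [hP] at h1
    have h2 : Complex.I • (Complex.I • A.ext z (e k)) = Complex.I • ((r 0 k : ℂ) • e k) := by
      rw [h1]
    rw [smul_smul, Complex.I_mul_I, neg_one_smul, smul_smul] at h2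
    unfold Eig
    rw [neg_eq_iff_eq_neg.1 h2, ← neg_smul]
    congr 1
    push_cast
    ring
  refine LinearMap.ext fun x => ?_
  rw [← e.sum_repr x, map_sum, map_sum]
  exact Finset.sum_congr rfl fun k _ => hf _ _ (eig_smul h (hE k) _)

/-- Eigenvectors at the definite places. -/
theorem key (H : HL A z Sg) {X : Module.End ℝ (Fin g → ℂ)}
    (hX : X ∈ spE A (A.NA : Set (Module.End ℚ A.H1))) {b : ℝ} (h1 : b ∉ Sg) (h2 : -b ∉ Sg)
    {y : Fin g → ℂ} (hy : Eig A z b y) : X (Complex.I • y) = Complex.I • X y := by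
  have h := zz H
  by_cases hy0 : y = 0
  · rw [hy0, smul_zero, map_zero, smul_zero]
  have e1 : A.ext z (X y) = b • X (Complex.I • y) := by
    rw [← N887.BTC.comm_EA h.mem hX, hy, mul_smul, ← map_smul]
    rfl
  have e2 : A.ext z (X (Complex.I • y)) = -(b • X y) := by
    rw [← N887.BTC.comm_EA h.mem hX, N887.BTC.EA_smul h.mem, hy, smul_smul]
    have h3 : Complex.I * ((b : ℂ) * Complex.I) = -(b : ℂ) := by
      linear_combination (b : ℂ) * Complex.I_mul_I
    rw [h3, neg_smul, map_neg, ← map_smul]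
    rfl
  have e3 : Eig A z (-b) (X y + Complex.I • X (Complex.I • y)) := by
    unfold Eig
    rw [map_add, N887.BTC.EA_smul h.mem, e1, e2]
    have h4 : b • X (Complex.I • y) = (b : ℂ) • X (Complex.I • y) := rfl
    have h5 : b • X y = (b : ℂ) • X y := rfl
    rw [h4, h5]
    generalize X (Complex.I • y) = w'
    generalize X y = w
    ext i
    simp only [Pi.add_apply, Pi.smul_apply, Pi.neg_apply, smul_eq_mul, Complex.ofReal_neg]
    linear_combination (b : ℂ) * w' i * Complex.I_mul_I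
  have e4 : X y + Complex.I • X (Complex.I • y) = 0 := by
    by_contra hcon
    rcases H.dfn b ⟨y, hy0, hy⟩ ⟨_, hcon, e3⟩ with h3 | h3
    · exact h1 h3
    · exact h2 h3
  have e5 : X y = -(Complex.I • X (Complex.I • y)) := eq_neg_of_add_eq_zero_left e4
  rw [e5, smul_neg, smul_smul, Complex.I_mul_I, neg_one_smul, neg_neg]

/-- Elements of the derived algebra which vanish at the indefinite places. -/
def KK (A : AbVar g) (z : Module.End ℚ A.H1) (Sg : Finset ℝ)
    (𝔮 : Submodule ℚ (Module.End ℚ A.H1)) : Submodule ℝ (Module.End ℝ (Fin g → ℂ)) where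
  carrier := {y | y ∈ spE A (der 𝔮 : Set (Module.End ℚ A.H1)) ∧
    ∀ be ∈ Sg, ∀ x ∈ V0 A z be, y x = 0}
  zero_mem' := ⟨Submodule.zero_mem _, fun _ _ x _ => LinearMap.zero_apply x⟩
  add_mem' := by
    rintro a b ⟨ha, ha'⟩ ⟨hb, hb'⟩
    exact ⟨Submodule.add_mem _ ha hb, fun be hbe x hx => by
      rw [LinearMap.add_apply, ha' be hbe x hx, hb' be hbe x hx, add_zero]⟩
  smul_mem' := by
    rintro c a ⟨ha, ha'⟩
    exact ⟨Submodule.smul_mem _ c ha, fun be hbe x hx => by
      rw [LinearMap.smul_apply, ha' be hbe x hx, smul_zero]⟩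

variable {𝔮 : Submodule ℚ (Module.End ℚ A.H1)}

theorem KK_J (H : HL A z Sg) (hq : A.Full 𝔮) {y : Module.End ℝ (Fin g → ℂ)}
    (hy : y ∈ KK A z Sg 𝔮) : y * AbVar.JJ = AbVar.JJ * y := by
  have h := zz H
  refine ext_eig h fun b x hx => ?_
  rw [Module.End.mul_apply, Module.End.mul_apply, AbVar.JJ_apply, AbVar.JJ_apply]
  by_cases h1 : b ∈ Sg
  · rw [hy.2 b h1 x (eig_V0 h hx), hy.2 b h1 _ (V0_smul h (eig_V0 h hx) _), smul_zero]
  · by_cases h2 : -b ∈ Sg
    · have h3 : x ∈ V0 A z (-b) := by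
        rw [V0_neg]
        exact eig_V0 h hx
      rw [hy.2 _ h2 x h3, hy.2 _ h2 _ (V0_smul h h3 _), smul_zero]
    · exact key H (N441.BGSJ.der_spE hq hy.1) h1 h2 hx

theorem mulneg (Y Z : Module.End ℝ (Fin g → ℂ)) : Y * -Z = -(Y * Z) :=
  LinearMap.ext fun u => by
    rw [Module.End.mul_apply, LinearMap.neg_apply, LinearMap.neg_apply, map_neg,
      Module.End.mul_apply]

theorem mulnegone (Y : Module.End ℝ (Fin g → ℂ)) : Y * -1 = -Y :=
  LinearMap.ext fun u => by
    rw [Module.End.mul_apply, LinearMap.neg_apply, LinearMap.neg_apply, map_neg,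
      Module.End.one_apply]

/-- operators which are skew for the positive form -/
theorem tr_skew {Y : Module.End ℝ (Fin g → ℂ)}
    (h : ∀ u v, A.PF (Y u) v = A.PF u ((-Y) v)) (h0 : LinearMap.trace ℝ (Fin g → ℂ) (Y * Y) = 0) :
    Y = 0 := by
  by_contra hne
  have h1 := tr_adj_pos h hne
  rw [mulneg, map_neg, h0, neg_zero] at h1
  exact lt_irrefl _ h1

theorem KK_zero (H : HL A z Sg) (hq : A.Full 𝔮) {y : Module.End ℝ (Fin g → ℂ)}
    (hy : y ∈ KK A z Sg 𝔮) (h0 : LinearMap.trace ℝ (Fin g → ℂ) (y * y) = 0) : y = 0 := by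
  refine tr_skew (A := A) (fun u v => ?_) h0
  rw [adj_spE (N441.BGSJ.der_spE hq hy.1), th_eq, ← KK_J H hq hy, mul_assoc, JJ_sq, mulnegone, neg_neg]

theorem KK_br (H : HL A z Sg) (hq : A.Full 𝔮) {y k : Module.End ℝ (Fin g → ℂ)}
    (hy : y ∈ spE A (der 𝔮 : Set (Module.End ℚ A.H1))) (hk : k ∈ KK A z Sg 𝔮) :
    y * k - k * y ∈ KK A z Sg 𝔮 := by
  refine ⟨N441.BGSJ.der_br hq y hy k hk.1, fun be hbe x hx => ?_⟩
  rw [LinearMap.sub_apply, Module.End.mul_apply, Module.End.mul_apply, hk.2 be hbe x hx, map_zero,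
    hk.2 be hbe _ (V0_spE (zz H) (N441.BGSJ.der_spE hq hy) hx), sub_zero]

/-- representation of linear functionals by an anisotropic form -/
theorem repr_form {W : Type} [AddCommGroup W] [Module ℝ W] [FiniteDimensional ℝ W]
    (B : W →ₗ[ℝ] Module.Dual ℝ W) (hB : ∀ w, B w w = 0 → w = 0) (f : Module.Dual ℝ W) :
    ∃ w, B w = f := by
  have hinj : Function.Injective B := by
    rw [injective_iff_map_eq_zero]
    intro w hw
    exact hB w (by rw [hw, LinearMap.zero_apply])
  exact (LinearMap.injective_iff_surjective_of_finrank_eq_finrank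
    (Subspace.dual_finrank_eq (K := ℝ) (V := W)).symm).1 hinj f

/-- The component in the complement. -/
theorem proj (H : HL A z Sg) (hq : A.Full 𝔮) {y : Module.End ℝ (Fin g → ℂ)}
    (hy : y ∈ spE A (der 𝔮 : Set (Module.End ℚ A.H1))) :
    ∃ y' ∈ spE A (der 𝔮 : Set (Module.End ℚ A.H1)), y - y' ∈ KK A z Sg 𝔮 ∧
      ∀ k ∈ KK A z Sg 𝔮, LinearMap.trace ℝ (Fin g → ℂ) (y' * k) = 0 := by
  let F : KK A z Sg 𝔮 →ₗ[ℝ] Module.Dual ℝ (KK A z Sg 𝔮) :=
    { toFun := fun k => ((LinearMap.trace ℝ (Fin g → ℂ)).comp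
        (LinearMap.mulLeft ℝ (k : Module.End ℝ (Fin g → ℂ)))).comp (KK A z Sg 𝔮).subtype
      map_add' := fun a b => by
        refine LinearMap.ext fun c => ?_
        simp only [LinearMap.comp_apply, LinearMap.mulLeft_apply, Submodule.subtype_apply,
          Submodule.coe_add, add_mul, map_add, LinearMap.add_apply]
      map_smul' := fun t a => by
        refine LinearMap.ext fun c => ?_
        simp only [LinearMap.comp_apply, LinearMap.mulLeft_apply, Submodule.subtype_apply,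
          Submodule.coe_smul, smul_mul_assoc, map_smul, LinearMap.smul_apply, RingHom.id_apply] }
  have hF : ∀ k k', F k k' = LinearMap.trace ℝ (Fin g → ℂ)
      ((k : Module.End ℝ (Fin g → ℂ)) * (k' : Module.End ℝ (Fin g → ℂ))) := fun k k' => rfl
  obtain ⟨k, hk⟩ := repr_form F (fun k hk => Subtype.ext (KK_zero H hq k.2 hk))
    (((LinearMap.trace ℝ (Fin g → ℂ)).comp
        (LinearMap.mulLeft ℝ y)).comp (KK A z Sg 𝔮).subtype)
  refine ⟨y - k, Submodule.sub_mem _ hy k.2.1, by rw [sub_sub_cancel]; exact k.2, fun k' hk' => ?_⟩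
  have h1 := LinearMap.congr_fun hk ⟨k', hk'⟩
  rw [hF] at h1
  rw [sub_mul, map_sub, h1, sub_eq_zero]
  rfl

/-- the polynomial which vanishes at the indefinite places -/
def QQ (Sg : Finset ℝ) : Polynomial ℝ := ∏ b ∈ Sg, (Polynomial.X + Polynomial.C (b ^ 2))

theorem QQ_eval {b : ℝ} : (QQ Sg).eval (-(b ^ 2)) = 0 ↔ b ∈ Sg ∨ -b ∈ Sg := by
  unfold QQ
  rw [Polynomial.eval_prod, Finset.prod_eq_zero_iff]
  constructor
  · rintro ⟨c, hc, h⟩
    rw [Polynomial.eval_add, Polynomial.eval_X, Polynomial.eval_C] at h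
    have h1 : (c - b) * (c + b) = 0 := by linear_combination h
    rcases mul_eq_zero.1 h1 with h2 | h2
    · left
      rwa [← sub_eq_zero.1 h2]
    · right
      rwa [← eq_neg_of_add_eq_zero_left h2]
  · rintro (h | h)
    · exact ⟨b, h, by rw [Polynomial.eval_add, Polynomial.eval_X, Polynomial.eval_C]; ring⟩
    · exact ⟨-b, h, by rw [Polynomial.eval_add, Polynomial.eval_X, Polynomial.eval_C]; ring⟩

/-- polynomials of `z²` -/
def PP (A : AbVar g) (z : Module.End ℚ A.H1) (q : Polynomial ℝ) : Module.End ℝ (Fin g → ℂ) :=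
  Polynomial.aeval (A.ext z * A.ext z) q

theorem PP_comm {q : Polynomial ℝ} {X : Module.End ℝ (Fin g → ℂ)}
    (hX : X * A.ext z = A.ext z * X) : X * PP A z q = PP A z q * X := by
  have h1 : Commute X (A.ext z * A.ext z) := by
    have h2 : Commute X (A.ext z) := hX
    exact h2.mul_right h2
  exact Algebra.commute_of_mem_adjoin_singleton_of_commute
    (Polynomial.aeval_mem_adjoin_singleton ℝ (A.ext z * A.ext z)) h1

theorem PP_V0 {q : Polynomial ℝ} {b : ℝ} {x : Fin g → ℂ} (hx : x ∈ V0 A z b) :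
    PP A z q x = q.eval (-(b ^ 2)) • x := by
  by_cases h0 : x = 0
  · rw [h0, map_zero, smul_zero]
  · refine Module.End.aeval_apply_of_hasEigenvector ⟨?_, h0⟩
    rw [Module.End.mem_eigenspace_iff, Module.End.mul_apply, neg_smul]
    exact eq_neg_of_add_eq_zero_left (mem_V0.1 hx)

theorem PP_adj (h : ZZ A z) (q : Polynomial ℝ) (u v : Fin g → ℂ) :
    A.PF (PP A z q u) v = A.PF u (PP A z q v) := by
  have hS : ∀ u v, A.PF ((A.ext z * A.ext z) u) v = A.PF u ((A.ext z * A.ext z) v) := by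
    intro u v
    rw [Module.End.mul_apply, Module.End.mul_apply, PF_skew h, PF_skew h, neg_neg]
  have hpow : ∀ (n : ℕ) (u v : Fin g → ℂ), A.PF (((A.ext z * A.ext z) ^ n) u) v =
      A.PF u (((A.ext z * A.ext z) ^ n) v) := by
    intro n
    induction n with
    | zero => intro u v; rw [pow_zero, Module.End.one_apply, Module.End.one_apply]
    | succ n ih =>
      intro u v
      rw [pow_succ, Module.End.mul_apply, ih, hS]
      rw [← Module.End.mul_apply, ← pow_succ', pow_succ]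
  unfold PP
  induction q using Polynomial.induction_on' with
  | add p q hp hq =>
    rw [map_add, LinearMap.add_apply, LinearMap.add_apply, map_add, map_add, LinearMap.add_apply,
      hp, hq]
  | monomial n a =>
    rw [Polynomial.aeval_monomial, Module.algebraMap_end_eq_smul_id, smul_mul_assoc,
      LinearMap.smul_apply, LinearMap.smul_apply, map_smul, map_smul, LinearMap.smul_apply]
    congr 1
    exact hpow n u v

/-- the main step: nilpotent elements of the complement vanish at the definite places -/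
theorem step (H : HL A z Sg) {e h : Module.End ℝ (Fin g → ℂ)}
    (he : e ∈ spE A (A.NA : Set (Module.End ℚ A.H1)))
    (hh : h ∈ spE A (A.NA : Set (Module.End ℚ A.H1)))
    (hb : h * e - e * h = (2 : ℝ) • e) {b : ℝ} (h1 : b ∉ Sg) (h2 : -b ∉ Sg)
    {x : Fin g → ℂ} (hx : x ∈ V0 A z b) : e x = 0 := by
  have hz := zz H
  set R := PP A z (QQ Sg) with hR
  have ce : e * R = R * e := PP_comm (LinearMap.ext fun u => N887.BTC.comm_EA hz.mem he u)
  have ch : h * R = R * h := PP_comm (LinearMap.ext fun u => N887.BTC.comm_EA hz.mem hh u)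
  have cJ : (AbVar.JJ : Module.End ℝ (Fin g → ℂ)) * R = R * AbVar.JJ :=
    PP_comm (LinearMap.ext fun u => by
      rw [Module.End.mul_apply, Module.End.mul_apply, AbVar.JJ_apply, AbVar.JJ_apply,
        N887.BTC.EA_smul hz.mem])
  -- `e R` commutes with the complex structure
  have k1 : e * R * AbVar.JJ = AbVar.JJ * (e * R) := by
    rw [mul_assoc, ← cJ]
    refine ext_eig hz fun c y hy => ?_
    have hyV := eig_V0 hz hy
    rw [Module.End.mul_apply, Module.End.mul_apply, Module.End.mul_apply, Module.End.mul_apply,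
      PP_V0 hyV, map_smul, map_smul, map_smul, map_smul, AbVar.JJ_apply, AbVar.JJ_apply]
    by_cases h3 : c ∈ Sg ∨ -c ∈ Sg
    · rw [QQ_eval.2 h3, zero_smul, zero_smul]
    · push Not at h3
      rw [key H he h3.1 h3.2 hy]
  -- `e R` is skew
  have k2 : ∀ u v, A.PF ((e * R) u) v = A.PF u ((-(e * R)) v) := by
    intro u v
    rw [Module.End.mul_apply, adj_spE he, PP_adj hz, th_eq, neg_neg, ← Module.End.mul_apply]
    congr 2
    rw [← mul_assoc, ← mul_assoc, ← hR, ← cJ, mul_assoc AbVar.JJ R e, ← ce, ← k1, mul_assoc,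
      JJ_sq, mulnegone]
  -- the trace
  have k3 : LinearMap.trace ℝ (Fin g → ℂ) ((e * R) * (e * R)) = 0 := by
    have e1 : (e * R) * (e * R) = e * e * (R * R) := by
      rw [mul_assoc e R, ← mul_assoc R e R, ← ce, mul_assoc e R R, ← mul_assoc]
    have e2 : (2 : ℝ) • ((e * R) * (e * R)) = h * (e * e * (R * R)) - e * (h * (e * (R * R))) := by
      rw [e1, mul_assoc e e, ← smul_mul_assoc, ← hb]
      simp only [sub_mul, mul_assoc]
    have e3 : LinearMap.trace ℝ (Fin g → ℂ) (e * (h * (e * (R * R)))) =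
        LinearMap.trace ℝ (Fin g → ℂ) (h * (e * e * (R * R))) := by
      rw [LinearMap.trace_mul_comm]
      congr 1
      have e4 : R * R * e = e * (R * R) := by rw [mul_assoc, ← ce, ← mul_assoc, ← ce, mul_assoc]
      rw [mul_assoc, mul_assoc e, e4, mul_assoc]
    have e5 := congrArg (LinearMap.trace ℝ (Fin g → ℂ)) e2
    rw [map_sub, e3, sub_self, map_smul, smul_eq_mul] at e5
    exact (mul_eq_zero.1 e5).resolve_left two_ne_zero
  have k4 := tr_skew (A := A) k2 k3
  have k5 := LinearMap.congr_fun k4 x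
  rw [Module.End.mul_apply, PP_V0 hx, map_smul, LinearMap.zero_apply] at k5
  refine (smul_eq_zero.1 k5).resolve_left fun h3 => ?_
  rcases QQ_eval.1 h3 with h4 | h4
  · exact h1 h4
  · exact h2 h4

/-- data at one place -/
abbrev Dat (A : AbVar g) (z : Module.End ℚ A.H1) (al : ℝ) : Type :=
  Σ (N : ℕ) (sg : Fin N → ℝ), {φ : VN N →ₗ[ℝ] (Fin g → ℂ) // WN A z al N sg φ}

theorem dat (H : HL A z Sg) (a : Sg) : Nonempty (Dat A z a.1) := by
  obtain ⟨W, hW⟩ := N755.BGWA.main g A z a.1 (H.hg.hq a.1 a.2)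
  obtain ⟨N, sg, φ, w⟩ := N455.BGWB.main g A z a.1 (H.hg.hq a.1 a.2) W hW
  exact ⟨⟨N, sg, φ, w⟩⟩

theorem lift_aux (H : HL A z Sg) (hq : A.Full 𝔮) (d : ∀ a : Sg, Dat A z a.1) (al : Sg) :
    ∀ m : MN (d al).1, IsSks (d al).2.1 m → m.trace = 0 →
      ∃ y ∈ spE A (der 𝔮 : Set (Module.End ℚ A.H1)),
        (∀ x, y ((d al).2.2.1 x) = (d al).2.2.1 (m *ᵥ x)) ∧
        ∀ be ∈ (Finset.univ : Finset Sg).erase al, ∀ x, y ((d be).2.2.1 x) = 0 :=
  N441.BGSJ.one_place N749.BGSU.main gpa_main N755.BGRR.main N999.BGSL.main H.hg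
    (fun a => (d a).1) (fun a => (d a).2.1) (fun a => (d a).2.2.1) (fun a => (d a).2.2.2) hq al _
    (Finset.notMem_erase al _)

/-- lifts which vanish at the other indefinite places -/
theorem lift (H : HL A z Sg) (hq : A.Full 𝔮) {al : ℝ} (hal : al ∈ Sg) {N : ℕ} {sg : Fin N → ℝ}
    {φ : VN N →ₗ[ℝ] (Fin g → ℂ)} (w : WN A z al N sg φ) (m : MN N) (hm : IsSks sg m)
    (ht : m.trace = 0) :
    ∃ y ∈ spE A (der 𝔮 : Set (Module.End ℚ A.H1)), (∀ x, y (φ x) = φ (m *ᵥ x)) ∧
      ∀ be ∈ Sg, be ≠ al → ∀ x ∈ V0 A z be, y x = 0 := by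
  classical
  let d0 : ∀ a : Sg, Dat A z a.1 := fun a => (dat H a).some
  let d : ∀ a : Sg, Dat A z a.1 := Function.update d0 ⟨al, hal⟩ ⟨N, sg, φ, w⟩
  have hd : d ⟨al, hal⟩ = ⟨N, sg, φ, w⟩ := Function.update_self _ _ _
  have key := lift_aux H hq d ⟨al, hal⟩
  rw [hd] at key
  obtain ⟨y, hy, h1, h2⟩ := key m hm ht
  refine ⟨y, hy, h1, fun be hbe hne x hx => ?_⟩
  refine (d ⟨be, hbe⟩).2.2.2.gen y (fun P hP => N441.BGSJ.spE_comm (N441.BGSJ.der_spE hq hy) hP)
    (fun u => h2 ⟨be, hbe⟩ ?_ u) x hx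
  exact Finset.mem_erase.2 ⟨fun h => hne (congrArg Subtype.val h), Finset.mem_univ _⟩

theorem phi_V0 {al : ℝ} (hne : al ≠ 0) {N : ℕ} {sg : Fin N → ℝ}
    {φ : VN N →ₗ[ℝ] (Fin g → ℂ)} (w : WN A z al N sg φ) (x : VN N) : φ x ∈ V0 A z al := by
  have h1 : ∀ x, A.ext z (φ x) = al • φ (Complex.I • x) := by
    intro x
    rw [w.mulI, smul_smul, mul_inv_cancel₀ hne, one_smul]
  rw [mem_V0, h1, map_smul, h1, smul_smul, ← sq, ← smul_add, smul_smul, Complex.I_mul_I,
    neg_one_smul, map_neg, neg_add_cancel, smul_zero]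

/-- long roots -/
theorem root (H : HL A z Sg) (hq : A.Full 𝔮) {al : ℝ} (hal : al ∈ Sg) {N : ℕ} {sg : Fin N → ℝ}
    {φ : VN N →ₗ[ℝ] (Fin g → ℂ)} (w : WN A z al N sg φ) {u : VN N} (hu0 : u ≠ 0)
    (hu : hs sg u u = 0) :
    ∃ y ∈ spE A (der 𝔮 : Set (Module.End ℚ A.H1)),
      (∀ x, y (φ x) = φ ((Complex.I • Rs sg u u) *ᵥ x)) ∧
      ∀ be : ℝ, be ^ 2 ≠ al ^ 2 → ∀ x ∈ V0 A z be, y x = 0 := by
  have hz := zz H
  have hne := (H.hg.hq al hal).ne
  have hsg := w.isSg
  -- the dual isotropic vector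
  obtain ⟨v, huv⟩ : ∃ v : VN N, hs sg u v = 1 := by
    have h1 := N749.BGPI.hs_D_self hsg hu0
    refine ⟨(star (hs sg u (N749.BGPI.D sg u)))⁻¹ • N749.BGPI.D sg u, ?_⟩
    rw [N49.BGP1.hs_smul_right, star_inv₀, star_star, inv_mul_cancel₀ h1]
  have hvu : hs sg v u = 1 := by rw [N49.BGP1.hs_conj u v, huv, star_one]
  set E : MN N := Complex.I • Rs sg u u with hE
  set F : MN N := Rs sg u v - Rs sg v u with hF
  have tE : E.trace = 0 := by
    rw [hE, Matrix.trace_smul, N49.BGP1.trace_R, hu, smul_zero]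
  have tF : F.trace = 0 := by
    rw [hF, Matrix.trace_sub, N49.BGP1.trace_R, N49.BGP1.trace_R, huv, hvu, sub_self]
  have sE : IsSks sg E := N49.BGP1.sk_R u
  have sF : IsSks sg F := by
    intro x y
    rw [hF, Matrix.sub_mulVec, Matrix.sub_mulVec, N49.BGP1.R_apply, N49.BGP1.R_apply,
      N49.BGP1.R_apply, N49.BGP1.R_apply, N49.BGP1.hs_sub_left, N49.BGP1.hs_sub_right,
      N49.BGP1.hs_smul_left, N49.BGP1.hs_smul_left, N49.BGP1.hs_smul_right,
      N49.BGP1.hs_smul_right, ← N49.BGP1.hs_conj y v, ← N49.BGP1.hs_conj y u]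
    ring
  have hFE : F * E - E * F = (2 : ℝ) • E := by
    have e1 : F * E = E := by
      rw [hF, hE, sub_mul, mul_smul_comm, mul_smul_comm, N49.BGP1.R_mul, N49.BGP1.R_mul, huv, hu,
        zero_smul, smul_zero, sub_zero, one_smul]
    have e2 : E * F = -E := by
      rw [hF, hE, mul_sub, smul_mul_assoc, smul_mul_assoc, N49.BGP1.R_mul, N49.BGP1.R_mul, hu,
        hvu, zero_smul, smul_zero, zero_sub, one_smul]
    rw [e1, e2, sub_neg_eq_add, two_smul]
  obtain ⟨e, he, e1, e2⟩ := lift H hq hal w E sE tE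
  obtain ⟨f, hf, f1, f2⟩ := lift H hq hal w F sF tF
  obtain ⟨e', he', e3, e4⟩ := proj H hq he
  obtain ⟨f', hf', f3, f4⟩ := proj H hq hf
  -- values
  have ve : ∀ be ∈ Sg, ∀ x ∈ V0 A z be, e' x = e x := by
    intro be hbe x hx
    have := e3.2 be hbe x hx
    rw [LinearMap.sub_apply, sub_eq_zero] at this
    exact this.symm
  have vf : ∀ be ∈ Sg, ∀ x ∈ V0 A z be, f' x = f x := by
    intro be hbe x hx
    have := f3.2 be hbe x hx
    rw [LinearMap.sub_apply, sub_eq_zero] at this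
    exact this.symm
  have ve1 : ∀ x, e' (φ x) = φ (E *ᵥ x) := fun x => by
    rw [ve al hal _ (phi_V0 hne w x), e1]
  have vf1 : ∀ x, f' (φ x) = φ (F *ᵥ x) := fun x => by
    rw [vf al hal _ (phi_V0 hne w x), f1]
  have he'N := N441.BGSJ.der_spE hq he'
  have hf'N := N441.BGSJ.der_spE hq hf'
  -- the relation
  set G := f' * e' - e' * f' - (2 : ℝ) • e' with hG
  have hGD : G ∈ spE A (der 𝔮 : Set (Module.End ℚ A.H1)) :=
    Submodule.sub_mem _ (N441.BGSJ.der_br hq f' hf' e' he') (Submodule.smul_mem _ _ he')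
  have hGK : G ∈ KK A z Sg 𝔮 := by
    refine ⟨hGD, fun be hbe x hx => ?_⟩
    by_cases hb : be = al
    · subst hb
      refine w.gen G (fun P hP => N441.BGSJ.spE_comm (N441.BGSJ.der_spE hq hGD) hP)
        (fun t => ?_) x hx
      rw [hG, LinearMap.sub_apply, LinearMap.sub_apply, LinearMap.smul_apply,
        Module.End.mul_apply, Module.End.mul_apply, ve1, vf1, vf1, ve1, ← map_smul, ← map_sub,
        ← map_sub, Matrix.mulVec_mulVec, Matrix.mulVec_mulVec, ← Matrix.sub_mulVec, hFE,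
        Matrix.smul_mulVec, sub_self, map_zero]
    · have z1 : e' x = 0 := by rw [ve be hbe x hx, e2 be hbe hb x hx]
      have z2 : f' x = 0 := by rw [vf be hbe x hx, f2 be hbe hb x hx]
      rw [hG, LinearMap.sub_apply, LinearMap.sub_apply, LinearMap.smul_apply,
        Module.End.mul_apply, Module.End.mul_apply, z1, z2, map_zero, map_zero, smul_zero,
        sub_self, sub_self]
  have hG0 : G = 0 := by
    refine KK_zero H hq hGK ?_
    have h5 : LinearMap.trace ℝ (Fin g → ℂ) ((f' * e' - e' * f') * G) = 0 := by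
      have h6 : (f' * e' - e' * f') * G = f' * e' * G - e' * (f' * G) := by
        rw [sub_mul, mul_assoc e' f' G]
      have h7 := e4 _ (KK_br H hq hf' hGK)
      rw [mul_sub, map_sub] at h7
      rw [h6, map_sub]
      have h8 : LinearMap.trace ℝ (Fin g → ℂ) (f' * e' * G) =
          LinearMap.trace ℝ (Fin g → ℂ) (e' * (G * f')) := by
        rw [mul_assoc, LinearMap.trace_mul_comm, mul_assoc]
      rw [h8]
      linear_combination -h7
    have h9 : G * G = (f' * e' - e' * f') * G - (2 : ℝ) • (e' * G) := by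
      conv_lhs => rw [hG]
      rw [sub_mul, smul_mul_assoc]
    rw [h9, map_sub, map_smul, h5, e4 G hGK, smul_zero, sub_zero]
  have hb : f' * e' - e' * f' = (2 : ℝ) • e' := sub_eq_zero.1 hG0
  refine ⟨e', he', ve1, fun be hbe x hx => ?_⟩
  by_cases h1 : be ∈ Sg
  · have hb' : be ≠ al := by
      rintro rfl
      exact hbe rfl
    rw [ve be h1 x hx, e2 be h1 hb' x hx]
  · by_cases h2 : -be ∈ Sg
    · have hb' : -be ≠ al := by
        rintro rfl
        exact hbe (neg_sq be).symm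
      have hx' : x ∈ V0 A z (-be) := by
        rw [V0_neg]
        exact hx
      rw [ve _ h2 x hx', e2 _ h2 hb' x hx']
    · exact step H he'N hf'N hb h1 h2 hx

/-- **LC/CPT.** -/
theorem main : Pool.Agent.N208.LC.S_CPT := by
  intro g A z Sg H al hal N sg φ w 𝔮 hq m hm ht
  have hmx := (H.hg.big al hal N sg φ w).1
  let M : Submodule ℝ (MN N) :=
    { carrier := {m | ∃ y ∈ spE A (der 𝔮 : Set (Module.End ℚ A.H1)),
        (∀ x, y (φ x) = φ (m *ᵥ x)) ∧ ∀ be : ℝ, be ^ 2 ≠ al ^ 2 → ∀ x ∈ V0 A z be, y x = 0}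
      zero_mem' := ⟨0, Submodule.zero_mem _, fun x => by
        rw [LinearMap.zero_apply, Matrix.zero_mulVec, map_zero], fun _ _ x _ =>
        LinearMap.zero_apply x⟩
      add_mem' := by
        rintro a b ⟨y, hy, h1, h2⟩ ⟨y', hy', h1', h2'⟩
        exact ⟨y + y', Submodule.add_mem _ hy hy', fun x => by
          rw [LinearMap.add_apply, Matrix.add_mulVec, map_add, h1, h1'], fun be hbe x hx => by
          rw [LinearMap.add_apply, h2 be hbe x hx, h2' be hbe x hx, add_zero]⟩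
      smul_mem' := by
        rintro c a ⟨y, hy, h1, h2⟩
        exact ⟨c • y, Submodule.smul_mem _ c hy, fun x => by
          rw [LinearMap.smul_apply, Matrix.smul_mulVec, map_smul, h1], fun be hbe x hx => by
          rw [LinearMap.smul_apply, h2 be hbe x hx, smul_zero]⟩ }
  have h1 := N749.BGSU.main N sg w.isSg hmx m hm ht
  have h2 : Submodule.span ℝ {Y : MN N | ∃ x : VN N, hs sg x x = 0 ∧
      Y = Complex.I • Rs sg x x} ≤ M := by
    refine Submodule.span_le.mpr ?_
    rintro Y ⟨x, hx, rfl⟩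
    by_cases hx0 : x = 0
    · subst hx0
      rw [N49.BGP1.R_zero_left, smul_zero]
      exact M.zero_mem
    · exact root H hq hal w hx0 hx
  exact h2 h1

end Pool.Agent.N966.LCCPT

end

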