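import Pool.Agent.N657.QR.Stm

/-!
# QR/E2R: the reflection step for the energy of two replicas
-/

set_option autoImplicit false

namespace Pool.Agent.N966.QR_E2R

open Pool.Agent.N657.QR

section Lemmas

variable {V : Type} [Fintype V] [DecidableEq V]

omit [Fintype V] [DecidableEq V] in
theorem sm {F : (V → ℤ) → (V → ℤ) → ℝ} (hF : fs2 F) (g : (V → ℤ) × (V → ℤ) → ℝ) :
    Summable (fun z : (V → ℤ) × (V → ℤ) => g z * F z.1 z.2) := by
  apply summable_of_hasFiniteSupport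
  refine Set.Finite.subset hF ?_
  intro z hz
  simp only [Function.mem_support] at hz ⊢
  intro h
  exact hz (by rw [h, mul_zero])

omit [Fintype V] [DecidableEq V] in
theorem sm2 {F : (V → ℤ) → (V → ℤ) → ℝ} (hF : fs2 F) (g : (V → ℤ) × (V → ℤ) → ℝ) :
    Summable (fun z : (V → ℤ) × (V → ℤ) => g z * F z.1 z.2 ^ 2) := by
  have := sm hF (fun z => g z * F z.1 z.2)
  refine this.congr fun z => ?_
  ring

/-- Correlation of shifts. -/
noncomputable def T (F : (V → ℤ) → (V → ℤ) → ℝ) (u v : V → ℤ) : ℝ :=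
  ∑' z : (V → ℤ) × (V → ℤ), F (z.1 + u) (z.2 + v) * F z.1 z.2

omit [Fintype V] [DecidableEq V] in
theorem T_neg (F : (V → ℤ) → (V → ℤ) → ℝ) (u v : V → ℤ) : T F (-u) (-v) = T F u v := by
  unfold T
  rw [← Equiv.tsum_eq (Equiv.addRight ((u, v) : (V → ℤ) × (V → ℤ)))
    (fun z => F (z.1 + -u) (z.2 + -v) * F z.1 z.2)]
  apply tsum_congr
  intro z
  simp [mul_comm]

omit [Fintype V] [DecidableEq V] in
theorem hops {F : (V → ℤ) → (V → ℤ) → ℝ} (hF : fs2 F) (c d : Bool → ℝ) (η ζ : Bool → V → ℤ) :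
    (∑' z : (V → ℤ) × (V → ℤ),
            F z.1 z.2 * ∑ i, ∑ j, c i * d j * F (z.1 + η i) (z.2 + ζ j)) =
      ∑ i, ∑ j, c i * d j * T F (η i) (ζ j) := by
  have h1 : ∀ z : (V → ℤ) × (V → ℤ),
      F z.1 z.2 * ∑ i, ∑ j, c i * d j * F (z.1 + η i) (z.2 + ζ j) =
        ∑ i, ∑ j, c i * d j * (F (z.1 + η i) (z.2 + ζ j) * F z.1 z.2) := by
    intro z
    rw [Finset.mul_sum]
    refine Finset.sum_congr rfl fun i _ => ?_
    rw [Finset.mul_sum]
    refine Finset.sum_congr rfl fun j _ => ?_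
    ring
  simp_rw [h1]
  rw [Summable.tsum_finsetSum]
  · refine Finset.sum_congr rfl fun i _ => ?_
    rw [Summable.tsum_finsetSum]
    · refine Finset.sum_congr rfl fun j _ => ?_
      rw [tsum_mul_left]
      rfl
    · intro j _
      exact (sm hF _).mul_left _
  · intro i _
    exact summable_sum fun j _ => (sm hF _).mul_left _

/-- The coupling term. -/
noncomputable def cp (F : (V → ℤ) → (V → ℤ) → ℝ) (c d : (V → ℤ) → ℝ) : ℝ :=
  ∑' z : (V → ℤ) × (V → ℤ), c z.1 * d z.2 * F z.1 z.2 ^ 2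

/-- The local quadratic form. -/
noncomputable def fl (K₁ K₂ : Matrix V V ℝ) (a : V → ℝ) (p : V → ℤ) : ℝ :=
  ∑ x, ∑ y, (K₁ x y + K₂ x y) / 4 * (((p x : ℝ) - a x) * ((p y : ℝ) - a y))

/-- The rows of the square root. -/
noncomputable def cl (B : Matrix V V ℝ) (a : V → ℝ) (k : V) (p : V → ℤ) : ℝ :=
  ∑ x, B k x * ((p x : ℝ) - a x)

omit [DecidableEq V] in
theorem cpl (K₁ K₂ B : Matrix V V ℝ) (hB : ∀ x y, K₂ x y - K₁ x y = ∑ k, B k x * B k y)
    (u v : V → ℝ) :
    ∑ x, ∑ y, (K₁ x y - K₂ x y) / 2 * (u x * v y) =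
      -(1 / 2) * ∑ k, (∑ x, B k x * u x) * (∑ y, B k y * v y) := by
  have h1 : ∀ x y, (K₁ x y - K₂ x y) / 2 * (u x * v y) =
      ∑ k, -(1 / 2) * ((B k x * u x) * (B k y * v y)) := by
    intro x y
    have : K₁ x y - K₂ x y = -∑ k, B k x * B k y := by rw [← hB]; ring
    rw [this, ← Finset.mul_sum, neg_div, Finset.sum_div, neg_mul, Finset.sum_mul, neg_mul,
      Finset.mul_sum]
    congr 1
    refine Finset.sum_congr rfl fun k _ => ?_
    ring
  simp_rw [h1, Finset.sum_mul_sum]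
  rw [Finset.mul_sum]
  simp_rw [Finset.mul_sum]
  have h2 : ∀ x : V, ∑ y : V, ∑ k : V, -(1 / 2) * ((B k x * u x) * (B k y * v y)) =
      ∑ k : V, ∑ y : V, -(1 / 2) * ((B k x * u x) * (B k y * v y)) := fun x => Finset.sum_comm
  simp_rw [h2]
  rw [Finset.sum_comm]

omit [DecidableEq V] in
theorem integrand (K₁ K₂ B : Matrix V V ℝ) (hB : ∀ x y, K₂ x y - K₁ x y = ∑ k, B k x * B k y)
    (a b : V → ℝ) (z : (V → ℤ) × (V → ℤ)) :
    (∑ x, ∑ y, ((K₁ x y + K₂ x y) / 4 *
        (((z.1 x : ℝ) - a x) * ((z.1 y : ℝ) - a y) + ((z.2 x : ℝ) - b x) * ((z.2 y : ℝ) - b y))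
      + (K₁ x y - K₂ x y) / 2 * (((z.1 x : ℝ) - a x) * ((z.2 y : ℝ) - b y)))) =
    fl K₁ K₂ a z.1 + fl K₁ K₂ b z.2 - 1 / 2 * ∑ k, cl B a k z.1 * cl B b k z.2 := by
  have h := cpl K₁ K₂ B hB (fun x => (z.1 x : ℝ) - a x) (fun x => (z.2 x : ℝ) - b x)
  simp only [mul_add, Finset.sum_add_distrib]
  rw [h]
  unfold fl cl
  ring

theorem E2_eq (K₁ K₂ B : Matrix V V ℝ) (hB : ∀ x y, K₂ x y - K₁ x y = ∑ k, B k x * B k y)
    (w₁ w₂ : V → V → ℝ) (a b : V → ℝ) {F : (V → ℤ) → (V → ℤ) → ℝ} (hF : fs2 F) :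
    E2 K₁ K₂ w₁ w₂ a b F =
      (∑' z : (V → ℤ) × (V → ℤ), fl K₁ K₂ a z.1 * F z.1 z.2 ^ 2) +
      (∑' z : (V → ℤ) × (V → ℤ), fl K₁ K₂ b z.2 * F z.1 z.2 ^ 2) -
      1 / 2 * (∑ k, cp F (cl B a k) (cl B b k)) -
      ∑ x, ∑ y, (w₁ x y * T F (dl x - dl y) (dl x - dl y) +
        w₂ x y * T F (dl x - dl y) (-(dl x - dl y))) := by
  unfold E2
  congr 1
  · simp_rw [integrand K₁ K₂ B hB a b]
    have h1 : ∀ z : (V → ℤ) × (V → ℤ),
        (fl K₁ K₂ a z.1 + fl K₁ K₂ b z.2 - 1 / 2 * ∑ k, cl B a k z.1 * cl B b k z.2) *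
          F z.1 z.2 ^ 2 =
        (fl K₁ K₂ a z.1 * F z.1 z.2 ^ 2 + fl K₁ K₂ b z.2 * F z.1 z.2 ^ 2) -
          1 / 2 * ∑ k, cl B a k z.1 * cl B b k z.2 * F z.1 z.2 ^ 2 := by
      intro z
      rw [← Finset.sum_mul]
      ring
    simp_rw [h1]
    have s1 : Summable (fun z : (V → ℤ) × (V → ℤ) => fl K₁ K₂ a z.1 * F z.1 z.2 ^ 2) :=
      sm2 hF (fun z => fl K₁ K₂ a z.1)
    have s2 : Summable (fun z : (V → ℤ) × (V → ℤ) => fl K₁ K₂ b z.2 * F z.1 z.2 ^ 2) :=
      sm2 hF (fun z => fl K₁ K₂ b z.2)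
    have s3 : ∀ k ∈ (Finset.univ : Finset V), Summable (fun z : (V → ℤ) × (V → ℤ) =>
        cl B a k z.1 * cl B b k z.2 * F z.1 z.2 ^ 2) :=
      fun k _ => sm2 hF (fun z => cl B a k z.1 * cl B b k z.2)
    rw [Summable.tsum_sub (s1.add s2) ((summable_sum s3).mul_left _), Summable.tsum_add s1 s2,
      tsum_mul_left, Summable.tsum_finsetSum s3]
    rfl
  · refine Finset.sum_congr rfl fun x _ => Finset.sum_congr rfl fun y _ => ?_
    congr 2
    · unfold T
      refine tsum_congr fun z => ?_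
      rw [hp, hp, add_sub_assoc, add_sub_assoc]
    · unfold T
      refine tsum_congr fun z => ?_
      rw [hp, hp, add_sub_assoc, neg_sub, add_sub_assoc]

omit [Fintype V] [DecidableEq V] in
theorem symm_sum (P : (V → ℤ) → (V → ℤ) → ℝ) (hP : ∀ p q, P p q = P q p) (f : (V → ℤ) → ℝ) :
    (∑' z : (V → ℤ) × (V → ℤ), f z.2 * P z.1 z.2 ^ 2) =
      ∑' z : (V → ℤ) × (V → ℤ), f z.1 * P z.1 z.2 ^ 2 := by
  rw [← Equiv.tsum_eq (Equiv.prodComm (V → ℤ) (V → ℤ)) (fun z => f z.2 * P z.1 z.2 ^ 2)]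
  refine tsum_congr fun z => ?_
  simp [hP z.2 z.1]

end Lemmas

open scoped MatrixOrder in
theorem root {V : Type} [Fintype V] [DecidableEq V] (K : Matrix V V ℝ) (hK : K.PosSemidef) :
    ∃ R : Matrix V V ℝ, ∀ x y, K x y = ∑ k, R k x * R k y := by
  obtain ⟨R, hR⟩ := CStarAlgebra.nonneg_iff_eq_star_mul_self.mp hK.nonneg
  refine ⟨R, fun x y => ?_⟩
  have := congrFun (congrFun hR x) y
  rw [Matrix.mul_apply] at this
  rw [this]
  refine Finset.sum_congr rfl fun k _ => ?_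
  rw [Matrix.star_apply, star_trivial]

theorem main (h : S_FSH) : S_E2R := by
  intro V _ _ K₁ K₂ w₁ w₂ a b A B M hK₁ hK₂ hK hw₁ hw₂ hM hPar
  obtain ⟨R, hB⟩ := root (K₂ - K₁) hK
  simp only [Matrix.sub_apply] at hB
  have hcast : ∀ p q : V → ℤ, ((fun x => (p x : ZMod 2)) = fun x => (q x : ZMod 2)) ↔
      ∀ x, (2 : ℤ) ∣ p x - q x := by
    intro p q
    rw [funext_iff]
    refine forall_congr' fun x => ?_
    rw [eq_comm, ZMod.intCast_eq_intCast_iff_dvd_sub]
    norm_num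
  obtain ⟨P, Q, hP, hQ, hPs, hQs, hPsup, hQsup, hL1, hL2, hRP⟩ :=
    h (V := V) (γ := V → ZMod 2) M (fun p x => (p x : ZMod 2)) (fun p x => (p x : ZMod 2))
      {p | tot p = A} {q | tot q = B} hM (by
        intro p q hpq
        obtain ⟨h1, h2, h3⟩ := hPar p q hpq
        exact ⟨h2, h3, (hcast p q).mpr h1⟩)
  refine ⟨P, Q, hP, hQ, ?_, ?_, ?_, ?_, ?_⟩
  · intro p q hpq
    obtain ⟨h1, h2, h3⟩ := hPsup p q hpq
    exact ⟨(hcast p q).mp h3, h1, h2⟩
  · intro p q hpq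
    obtain ⟨h1, h2, h3⟩ := hQsup p q hpq
    exact ⟨(hcast p q).mp h3, h1, h2⟩
  · have := hL1 (fun _ => 1) 0
    simp only [add_zero, one_mul, ← pow_two] at this
    exact this.symm
  · have := hL2 (fun _ => 1) 0
    simp only [add_zero, one_mul, ← pow_two] at this
    exact this.symm
  · rw [E2_eq K₁ K₂ R hB _ _ a b hM, E2_eq K₁ K₂ R hB _ _ a a hP, E2_eq K₁ K₂ R hB _ _ b b hQ,
      symm_sum P hPs, symm_sum Q hQs]
    have e1 : (∑' z : (V → ℤ) × (V → ℤ), fl K₁ K₂ a z.1 * M z.1 z.2 ^ 2) =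
        ∑' z : (V → ℤ) × (V → ℤ), fl K₁ K₂ a z.1 * P z.1 z.2 ^ 2 := by
      have := hL1 (fl K₁ K₂ a) 0
      simp only [add_zero, ← pow_two] at this
      exact this
    have e2 : (∑' z : (V → ℤ) × (V → ℤ), fl K₁ K₂ b z.2 * M z.1 z.2 ^ 2) =
        ∑' z : (V → ℤ) × (V → ℤ), fl K₁ K₂ b z.1 * Q z.1 z.2 ^ 2 := by
      have := hL2 (fl K₁ K₂ b) 0
      simp only [add_zero, ← pow_two] at this
      exact this
    -- coupling
    have hc : ∀ k, 2 * cp M (cl R a k) (cl R b k) ≤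
        cp P (cl R a k) (cl R a k) + cp Q (cl R b k) (cl R b k) := by
      intro k
      have := hRP (ι := Unit) (fun _ => cl R a k) (fun _ => cl R b k) (fun _ => 0) (fun _ => 0)
      simp only [Finset.univ_unique, Finset.sum_singleton, add_zero] at this
      have g : ∀ (F : (V → ℤ) → (V → ℤ) → ℝ) (c d : (V → ℤ) → ℝ),
          (∑' z : (V → ℤ) × (V → ℤ), F z.1 z.2 * (c z.1 * d z.2 * F z.1 z.2)) = cp F c d := by
        intro F c d
        unfold cp
        refine tsum_congr fun z => ?_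
        ring
      rw [g, g, g] at this
      exact this
    have hcs : 2 * ∑ k, cp M (cl R a k) (cl R b k) ≤
        (∑ k, cp P (cl R a k) (cl R a k)) + ∑ k, cp Q (cl R b k) (cl R b k) := by
      rw [Finset.mul_sum, ← Finset.sum_add_distrib]
      exact Finset.sum_le_sum fun k _ => hc k
    -- hops
    have hh : ∀ x y, 2 * (w₁ x y * T M (dl x - dl y) (dl x - dl y) +
        w₂ x y * T M (dl x - dl y) (-(dl x - dl y))) ≤
        ((w₁ ⊔ w₂) x y * T P (dl x - dl y) (dl x - dl y) +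
          (w₁ ⊓ w₂) x y * T P (dl x - dl y) (-(dl x - dl y))) +
        ((w₁ ⊔ w₂) x y * T Q (dl x - dl y) (dl x - dl y) +
          (w₁ ⊓ w₂) x y * T Q (dl x - dl y) (-(dl x - dl y))) := by
      intro x y
      set e : V → ℤ := dl x - dl y with he
      have hn1 : ∀ F : (V → ℤ) → (V → ℤ) → ℝ, T F (-e) (-e) = T F e e := fun F => T_neg F e e
      have hn2 : ∀ F : (V → ℤ) → (V → ℤ) → ℝ, T F (-e) e = T F e (-e) := by
        intro F
        have := T_neg F e (-e)
        rwa [neg_neg] at this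
      have key : ∀ s : Bool → ℝ, ∀ t : Bool → ℝ,
          2 * (∑ i, ∑ j, s i * t j * T M (if i then e else -e) (if j then e else -e)) ≤
          (∑ i, ∑ j, s i * s j * T P (if i then e else -e) (if j then e else -e)) +
          (∑ i, ∑ j, t i * t j * T Q (if i then e else -e) (if j then e else -e)) := by
        intro s t
        have := hRP (ι := Bool) (fun i _ => s i) (fun i _ => t i) (fun i => if i then e else -e)
          (fun i => if i then e else -e)
        rw [hops hM, hops hP, hops hQ] at this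
        exact this
      have k1 := key (fun _ => 1) (fun _ => 1)
      have k2 := key (fun i => if i then 1 else -1) (fun i => if i then 1 else -1)
      have k3 := key (fun i => if i then 1 else -1) (fun i => if i then -1 else 1)
      simp only [Fintype.sum_bool, if_true, Bool.false_eq_true, if_false, hn1, hn2] at k1 k2 k3
      simp only [Pi.sup_apply, Pi.inf_apply]
      have w1 := hw₁ x y
      have w2 := hw₂ x y
      generalize T M e e = am at *
      generalize T M e (-e) = bm at *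
      generalize T P e e = ap at *
      generalize T P e (-e) = bp at *
      generalize T Q e e = aq at *
      generalize T Q e (-e) = bq at *
      generalize w₁ x y = u at *
      generalize w₂ x y = v at *
      rcases le_total u v with huv | huv
      · rw [sup_eq_right.mpr huv, inf_eq_left.mpr huv]
        have hv : 0 ≤ v - u := sub_nonneg.mpr huv
        nlinarith [mul_le_mul_of_nonneg_left k1 (add_nonneg w1 w2),
          mul_le_mul_of_nonneg_left k3 hv]
      · rw [sup_eq_left.mpr huv, inf_eq_right.mpr huv]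
        have hv : 0 ≤ u - v := sub_nonneg.mpr huv
        nlinarith [mul_le_mul_of_nonneg_left k1 (add_nonneg w1 w2),
          mul_le_mul_of_nonneg_left k2 hv]
    have hhs := Finset.sum_le_sum (s := (Finset.univ : Finset V)) fun x _ =>
      Finset.sum_le_sum (s := (Finset.univ : Finset V)) fun y _ => hh x y
    simp only [← Finset.mul_sum, Finset.sum_add_distrib] at hhs
    simp only [Finset.sum_add_distrib]
    rw [e1, e2]
    linarith

end Pool.Agent.N966.QR_E2R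

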