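import Pool.Agent.N906.SZ.Stm

/-!
# SZ/DENS: local densities of the conditions `C_n`
-/

set_option autoImplicit false

namespace Pool.Agent.N966.SZ

open Finset Pool.Agent.N906.SZ

/-! ### Numbers of classes of pairs -/

/-- the classes modulo `q` of the pairs with `W` -/
def Cl (q : ℕ) (W : ℤ → ℤ → Prop) : Set (ZMod q × ZMod q) :=
  {x | ∃ a b : ℤ, W a b ∧ (a : ZMod q) = x.1 ∧ (b : ZMod q) = x.2}

/-- the number of the classes -/
noncomputable def cl (q : ℕ) (W : ℤ → ℤ → Prop) : ℕ := (Cl q W).ncard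

lemma cl_cover {q : ℕ} {W : ℤ → ℤ → Prop} {β : Type} [Finite β] (f : β → ZMod q × ZMod q)
    (T : Set β) (h : ∀ a b : ℤ, W a b → ∃ y ∈ T, f y = ((a : ZMod q), (b : ZMod q))) :
    cl q W ≤ T.ncard := by
  have h1 : Cl q W ⊆ f '' T := by
    rintro ⟨x, y⟩ ⟨a, b, hW, ha, hb⟩
    obtain ⟨z, hz, hf⟩ := h a b hW
    refine ⟨z, hz, ?_⟩
    rw [hf]
    exact Prod.ext ha hb
  exact (Set.ncard_le_ncard h1 (T.toFinite.image f)).trans (Set.ncard_image_le T.toFinite)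

lemma cl_mono {q : ℕ} (hq : q ≠ 0) {W W' : ℤ → ℤ → Prop} (h : ∀ a b, W a b → W' a b) :
    cl q W ≤ cl q W' := by
  have : NeZero q := ⟨hq⟩
  refine Set.ncard_le_ncard ?_ (Set.toFinite _)
  rintro x ⟨a, b, hW, ha, hb⟩
  exact ⟨a, b, h a b hW, ha, hb⟩

lemma cl_or {q : ℕ} (hq : q ≠ 0) {W W1 W2 : ℤ → ℤ → Prop}
    (h : ∀ a b, W a b → W1 a b ∨ W2 a b) : cl q W ≤ cl q W1 + cl q W2 := by
  have : NeZero q := ⟨hq⟩
  have h1 : Cl q W ⊆ Cl q W1 ∪ Cl q W2 := by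
    rintro x ⟨a, b, hW, ha, hb⟩
    rcases h a b hW with h | h
    · exact Or.inl ⟨a, b, h, ha, hb⟩
    · exact Or.inr ⟨a, b, h, ha, hb⟩
  exact (Set.ncard_le_ncard h1 (Set.toFinite _)).trans (Set.ncard_union_le _ _)

lemma cl_triv {q : ℕ} (hq : q ≠ 0) (W : ℤ → ℤ → Prop) : cl q W ≤ q * q := by
  have : NeZero q := ⟨hq⟩
  have h := Set.ncard_le_ncard (Set.subset_univ (Cl q W)) (Set.toFinite _)
  rwa [Set.ncard_univ, Nat.card_prod, Nat.card_zmod] at h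

lemma cl_scale {Q q I J : ℕ} (hq : q ≠ 0) (hI : I ≠ 0) (hJ : J ≠ 0) (u v : ℤ)
    {W W1 : ℤ → ℤ → Prop} (hu : (Q : ℤ) ∣ u * q * I) (hv : (Q : ℤ) ∣ v * q * J)
    (h : ∀ a b, W a b → ∃ a1 b1, a = u * a1 ∧ b = v * b1 ∧ W1 a1 b1) :
    cl Q W ≤ cl q W1 * (I * J) := by
  have : NeZero q := ⟨hq⟩
  have h1 : cl Q W ≤ (Cl q W1 ×ˢ (Set.univ : Set (Fin I × Fin J))).ncard := by
    refine cl_cover (fun z => (((u * ((z.1.1.val : ℤ) + q * ((z.2.1 : ℕ) : ℤ)) : ℤ) : ZMod Q),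
      ((v * ((z.1.2.val : ℤ) + q * ((z.2.2 : ℕ) : ℤ)) : ℤ) : ZMod Q))) _ ?_
    intro a b hW
    obtain ⟨a1, b1, rfl, rfl, hW1⟩ := h a b hW
    have key : ∀ (w : ℤ) (K : ℕ), K ≠ 0 → (Q : ℤ) ∣ w * q * K → ∀ c : ℤ, ∃ i : Fin K,
        ((w * ((((c : ℤ) : ZMod q).val : ℤ) + q * ((i : ℕ) : ℤ)) : ℤ) : ZMod Q) =
          ((w * c : ℤ) : ZMod Q) := by
      intro w K hK hw c
      have hK' : (0 : ℤ) < K := by positivity
      have e1 := Int.emod_nonneg (c / q) hK'.ne'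
      have e2 := Int.emod_lt_of_pos (c / q) hK'
      refine ⟨⟨(c / q % K).toNat, by omega⟩, ?_⟩
      rw [ZMod.intCast_eq_intCast_iff_dvd_sub]
      have e3 : (((c / q % K).toNat : ℕ) : ℤ) = c / q % K := Int.toNat_of_nonneg e1
      have e4 : (((c : ℤ) : ZMod q).val : ℤ) = c % q := ZMod.val_intCast c
      simp only [e3, e4]
      have e5 := Int.emod_add_mul_ediv c q
      have e6 := Int.emod_add_mul_ediv (c / q) K
      have e7 : w * c - w * (c % q + q * (c / q % K)) = w * q * K * (c / q / K) := by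
        linear_combination (-w) * e5 + (-(w * q)) * e6
      rw [e7]
      exact Dvd.dvd.mul_right hw _
    obtain ⟨i, hi⟩ := key u I hI hu a1
    obtain ⟨j, hj⟩ := key v J hJ hv b1
    exact ⟨(((a1 : ZMod q), (b1 : ZMod q)), (i, j)), ⟨⟨a1, b1, hW1, rfl, rfl⟩, Set.mem_univ _⟩,
      Prod.ext hi hj⟩
  rwa [Set.ncard_prod, Set.ncard_univ, Nat.card_prod, Nat.card_fin, Nat.card_fin] at h1

lemma cl_box {p e i j : ℕ} (hp : p ≠ 0) (hi : i ≤ e) (hj : j ≤ e) {W : ℤ → ℤ → Prop}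
    (h : ∀ a b, W a b → (p : ℤ) ^ i ∣ a ∧ (p : ℤ) ^ j ∣ b) :
    cl (p ^ e) W ≤ p ^ (e - i) * p ^ (e - j) := by
  have h1 := cl_scale (Q := p ^ e) (q := 1) (I := p ^ (e - i)) (J := p ^ (e - j)) one_ne_zero
    (pow_ne_zero _ hp) (pow_ne_zero _ hp) ((p : ℤ) ^ i) ((p : ℤ) ^ j) (W := W)
    (W1 := fun _ _ => True) (by
      push_cast
      rw [mul_one, ← pow_add, Nat.add_sub_cancel' hi]) (by
      push_cast
      rw [mul_one, ← pow_add, Nat.add_sub_cancel' hj]) (by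
      intro a b hW
      obtain ⟨⟨a1, rfl⟩, ⟨b1, rfl⟩⟩ := h a b hW
      exact ⟨a1, b1, rfl, rfl, trivial⟩)
  have h2 : cl 1 (fun _ _ => True) ≤ 1 * 1 := cl_triv one_ne_zero _
  calc cl (p ^ e) W ≤ cl 1 (fun _ _ => True) * (p ^ (e - i) * p ^ (e - j)) := h1
    _ ≤ (1 * 1) * (p ^ (e - i) * p ^ (e - j)) := Nat.mul_le_mul_right _ h2
    _ = _ := by ring

lemma D_zmod {q : ℕ} {a b : ℤ} (h : (q : ℤ) ∣ Dd a b) :
    4 * (a : ZMod q) ^ 3 = 27 * (b : ZMod q) ^ 2 := by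
  have h1 := (ZMod.intCast_zmod_eq_zero_iff_dvd (Dd a b) q).2 h
  unfold Dd at h1
  push_cast at h1
  exact sub_eq_zero.1 h1

lemma cl_cusp {q : ℕ} (hq : q ≠ 0) {W : ℤ → ℤ → Prop}
    (h : ∀ a b, W a b → (q : ℤ) ∣ Dd a b ∧ (IsUnit ((2 * a : ℤ) : ZMod q) ∨
      ((a : ZMod q) = 0 ∧ (b : ZMod q) = 0))) : cl q W ≤ q := by
  have : NeZero q := ⟨hq⟩
  have h1 : cl q W ≤ (Set.univ : Set (ZMod q)).ncard := by
    refine cl_cover (fun t => (3 * t ^ 2, 2 * t ^ 3)) _ ?_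
    intro a b hW
    obtain ⟨hd, hu | ⟨h1, h2⟩⟩ := h a b hW
    · obtain ⟨u, hu⟩ := hu.exists_right_inv
      have hD := D_zmod hd
      push_cast at hu
      refine ⟨3 * b * u, Set.mem_univ _, Prod.ext ?_ ?_⟩
      · change 3 * (3 * (b : ZMod q) * u) ^ 2 = a
        linear_combination (-(u ^ 2)) * hD + (a * (2 * a * u + 1)) * hu
      · change 2 * (3 * (b : ZMod q) * u) ^ 3 = b
        linear_combination (-(2 * b * u ^ 3)) * hD +
          (b * ((2 * a * u) ^ 2 + 2 * a * u + 1)) * hu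
    · exact ⟨0, Set.mem_univ _, Prod.ext (by simp [h1]) (by simp [h2])⟩
  rwa [Set.ncard_univ, Nat.card_zmod] at h1

/-! ### Divisibility -/

lemma unit_of {p : ℕ} (hp : p.Prime) (e : ℕ) {a : ℤ} (h : ¬ (p : ℤ) ∣ a) :
    IsUnit (a : ZMod (p ^ e)) := by
  rw [ZMod.coe_int_isUnit_iff_isCoprime]
  push_cast
  exact ((Nat.prime_iff_prime_int.1 hp).coprime_iff_not_dvd.2 h).pow_left

section big

variable {p : ℕ} (hp : p.Prime) (h5 : 5 ≤ p)

include hp h5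

lemma not27 : ¬ (p : ℤ) ∣ 27 := by
  intro h
  have h1 : p ∣ 3 ^ 3 := by exact_mod_cast h
  have h2 := Nat.le_of_dvd (by norm_num) (hp.dvd_of_dvd_pow h1)
  omega

lemma not4 : ¬ (p : ℤ) ∣ 4 := by
  intro h
  have h1 : p ∣ 2 ^ 2 := by exact_mod_cast h
  have h2 := Nat.le_of_dvd (by norm_num) (hp.dvd_of_dvd_pow h1)
  omega

lemma unit2 (e : ℕ) {a : ℤ} (h : ¬ (p : ℤ) ∣ a) : IsUnit ((2 * a : ℤ) : ZMod (p ^ e)) := by
  refine unit_of hp e fun h1 => ?_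
  rcases (Nat.prime_iff_prime_int.1 hp).dvd_or_dvd h1 with h2 | h2
  · exact not4 hp h5 (h2.trans (by norm_num))
  · exact h h2

lemma F1 {a b : ℤ} (ha : (p : ℤ) ∣ a) (hD : (p : ℤ) ∣ Dd a b) : (p : ℤ) ∣ b := by
  have hpp := Nat.prime_iff_prime_int.1 hp
  obtain ⟨a', rfl⟩ := ha
  have h1 : (p : ℤ) ∣ 27 * b ^ 2 := by
    have h2 : (27 * b ^ 2 : ℤ) = p * (4 * p ^ 2 * a' ^ 3) - Dd (p * a') b := by unfold Dd; ring
    rw [h2]
    exact dvd_sub (dvd_mul_right _ _) hD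
  exact hpp.dvd_of_dvd_pow ((hpp.dvd_or_dvd h1).resolve_left (not27 hp h5))

lemma F2 {a b : ℤ} (ha : (p : ℤ) ∣ a) (hD : (p : ℤ) ^ 3 ∣ Dd a b) : (p : ℤ) ^ 2 ∣ b := by
  have hpp := Nat.prime_iff_prime_int.1 hp
  obtain ⟨b', rfl⟩ := F1 hp h5 ha ((dvd_pow_self _ (by norm_num)).trans hD)
  obtain ⟨a', rfl⟩ := ha
  have h1 : (p : ℤ) ∣ 27 * b' ^ 2 := by
    have h2 : (p : ℤ) ^ 2 * (27 * b' ^ 2) = p ^ 3 * (4 * a' ^ 3) - Dd (p * a') (p * b') := by
      unfold Dd; ring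
    have h3 : (p : ℤ) ^ 2 * p ∣ (p : ℤ) ^ 2 * (27 * b' ^ 2) := by
      rw [h2, ← pow_succ]
      exact dvd_sub (dvd_mul_right _ _) hD
    exact (mul_dvd_mul_iff_left (pow_ne_zero 2 hpp.ne_zero)).1 h3
  have h4 := hpp.dvd_of_dvd_pow ((hpp.dvd_or_dvd h1).resolve_left (not27 hp h5))
  rw [pow_two]
  exact mul_dvd_mul_left _ h4

lemma F3 {a b : ℤ} (ha : (p : ℤ) ∣ a) (hD : (p : ℤ) ^ 4 ∣ Dd a b) : (p : ℤ) ^ 2 ∣ a := by
  have hpp := Nat.prime_iff_prime_int.1 hp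
  obtain ⟨b', rfl⟩ := F2 hp h5 ha ((pow_dvd_pow _ (by norm_num)).trans hD)
  obtain ⟨a', rfl⟩ := ha
  have h1 : (p : ℤ) ∣ 4 * a' ^ 3 := by
    have h2 : (p : ℤ) ^ 3 * (4 * a' ^ 3) = Dd (p * a') (p ^ 2 * b') + p ^ 4 * (27 * b' ^ 2) := by
      unfold Dd; ring
    have h3 : (p : ℤ) ^ 3 * p ∣ (p : ℤ) ^ 3 * (4 * a' ^ 3) := by
      rw [h2, ← pow_succ]
      exact dvd_add hD (dvd_mul_right _ _)
    exact (mul_dvd_mul_iff_left (pow_ne_zero 3 hpp.ne_zero)).1 h3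
  have h4 := hpp.dvd_of_dvd_pow ((hpp.dvd_or_dvd h1).resolve_left (not4 hp h5))
  rw [pow_two]
  exact mul_dvd_mul_left _ h4

lemma F4 {a b : ℤ} (ha : (p : ℤ) ∣ a) (hD : (p : ℤ) ^ 5 ∣ Dd a b) :
    (p : ℤ) ^ 2 ∣ a ∧ (p : ℤ) ^ 3 ∣ b := by
  have hpp := Nat.prime_iff_prime_int.1 hp
  have h0 := F3 hp h5 ha ((pow_dvd_pow _ (by norm_num)).trans hD)
  refine ⟨h0, ?_⟩
  obtain ⟨b', rfl⟩ := F2 hp h5 ha ((pow_dvd_pow _ (by norm_num)).trans hD)
  obtain ⟨a', rfl⟩ := h0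
  have h1 : (p : ℤ) ∣ 27 * b' ^ 2 := by
    have h2 : (p : ℤ) ^ 4 * (27 * b' ^ 2) = p ^ 5 * (4 * p * a' ^ 3) -
        Dd (p ^ 2 * a') (p ^ 2 * b') := by
      unfold Dd; ring
    have h3 : (p : ℤ) ^ 4 * p ∣ (p : ℤ) ^ 4 * (27 * b' ^ 2) := by
      rw [h2, ← pow_succ]
      exact dvd_sub (dvd_mul_right _ _) hD
    exact (mul_dvd_mul_iff_left (pow_ne_zero 4 hpp.ne_zero)).1 h3
  have h4 := hpp.dvd_of_dvd_pow ((hpp.dvd_or_dvd h1).resolve_left (not27 hp h5))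
  rw [pow_succ]
  exact mul_dvd_mul_left _ h4

/-- the reduced pairs -/
lemma loc1 {k : ℕ} (hk : 1 ≤ k) : cl (p ^ k) (fun a b => (p : ℤ) ^ k ∣ Dd a b ∧
    ¬ ((p : ℤ) ^ 2 ∣ a ∧ (p : ℤ) ^ 3 ∣ b)) ≤ (if 2 ≤ k ∧ k ≤ 4 then 2 else 1) * p ^ k := by
  have hq : p ^ k ≠ 0 := pow_ne_zero _ hp.ne_zero
  -- the pairs with `p ∤ a`
  have hA : cl (p ^ k) (fun a b => (p : ℤ) ^ k ∣ Dd a b ∧ ¬ (p : ℤ) ∣ a) ≤ p ^ k := by
    refine cl_cusp hq fun a b h => ⟨by push_cast; exact h.1, Or.inl (unit2 hp h5 k h.2)⟩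
  by_cases hk24 : 2 ≤ k ∧ k ≤ 4
  · rw [if_pos hk24]
    have hB : cl (p ^ k) (fun a b => (p : ℤ) ^ k ∣ Dd a b ∧ (p : ℤ) ∣ a) ≤ p ^ k := by
      have hk' : k = 2 ∨ k = 3 ∨ k = 4 := by omega
      rcases hk' with rfl | rfl | rfl
      · refine (cl_box (i := 1) (j := 1) hp.ne_zero (by norm_num) (by norm_num) ?_).trans
          (le_of_eq (by ring))
        rintro a b ⟨h1, h2⟩
        rw [pow_one]
        exact ⟨h2, F1 hp h5 h2 ((dvd_pow_self _ (by norm_num)).trans h1)⟩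
      · refine (cl_box (i := 1) (j := 2) hp.ne_zero (by norm_num) (by norm_num) ?_).trans
          (le_of_eq (by ring))
        rintro a b ⟨h1, h2⟩
        rw [pow_one]
        exact ⟨h2, F2 hp h5 h2 h1⟩
      · refine (cl_box (i := 2) (j := 2) hp.ne_zero (by norm_num) (by norm_num) ?_).trans
          (le_of_eq (by ring))
        rintro a b ⟨h1, h2⟩
        exact ⟨F3 hp h5 h2 h1, F2 hp h5 h2 ((pow_dvd_pow _ (by norm_num)).trans h1)⟩
    refine (cl_or hq (W1 := fun a b => (p : ℤ) ^ k ∣ Dd a b ∧ ¬ (p : ℤ) ∣ a)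
      (W2 := fun a b => (p : ℤ) ^ k ∣ Dd a b ∧ (p : ℤ) ∣ a) ?_).trans (by omega)
    rintro a b ⟨h1, -⟩
    by_cases h2 : (p : ℤ) ∣ a
    · exact Or.inr ⟨h1, h2⟩
    · exact Or.inl ⟨h1, h2⟩
  · rw [if_neg hk24, one_mul]
    by_cases hk1 : k = 1
    · subst hk1
      refine cl_cusp hq fun a b h => ⟨by push_cast; exact h.1, ?_⟩
      by_cases h2 : (p : ℤ) ∣ a
      · right
        have h3 := F1 hp h5 h2 (by simpa using h.1)
        constructor
        · rw [ZMod.intCast_zmod_eq_zero_iff_dvd]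
          push_cast
          rwa [pow_one]
        · rw [ZMod.intCast_zmod_eq_zero_iff_dvd]
          push_cast
          rwa [pow_one]
      · exact Or.inl (unit2 hp h5 1 h2)
    · refine (cl_mono hq ?_).trans hA
      rintro a b ⟨h1, h2⟩
      refine ⟨h1, fun h3 => h2 (F4 hp h5 h3 ((pow_dvd_pow _ (by omega)).trans h1))⟩

lemma loc_big {g : ℕ} (hg : 1 ≤ g) : cl (p ^ (g + 1)) (fun a b =>
    ¬ ((p : ℤ) ^ 4 ∣ a ∧ (p : ℤ) ^ 6 ∣ b) ∧ (p : ℤ) ^ (g + fe p a) ∣ Dd a b) ≤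
      (if 6 ≤ g ∧ g ≤ 8 then 3 else 2) * p ^ (g + 1) := by
  have hq : p ^ (g + 1) ≠ 0 := pow_ne_zero _ hp.ne_zero
  have hpp := Nat.prime_iff_prime_int.1 hp
  -- the pairs with `p ∤ a`
  have hA : cl (p ^ (g + 1)) (fun a b => (p : ℤ) ^ (g + 1) ∣ Dd a b ∧ ¬ (p : ℤ) ∣ a) ≤
      p ^ (g + 1) := by
    refine cl_cusp hq fun a b h => ⟨by push_cast; exact h.1, Or.inl (unit2 hp h5 _ h.2)⟩
  -- the pairs with `p ∣ a`
  have hB : cl (p ^ (g + 1)) (fun a b => ¬ ((p : ℤ) ^ 4 ∣ a ∧ (p : ℤ) ^ 6 ∣ b) ∧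
      (p : ℤ) ^ (g + 2) ∣ Dd a b ∧ (p : ℤ) ∣ a) ≤
      (if 6 ≤ g ∧ g ≤ 8 then 2 else 1) * p ^ (g + 1) := by
    have hg' : g = 1 ∨ g = 2 ∨ g = 3 ∨ g = 4 ∨ 5 ≤ g := by omega
    rcases hg' with rfl | rfl | rfl | rfl | hg5
    · rw [if_neg (by omega)]
      refine (cl_box (i := 1) (j := 2) hp.ne_zero (by norm_num) (by norm_num) ?_).trans ?_
      · rintro a b ⟨-, h1, h2⟩
        rw [pow_one]
        exact ⟨h2, F2 hp h5 h2 h1⟩
      · have := hp.pos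
        norm_num
        nlinarith
    · rw [if_neg (by omega)]
      refine (cl_box (i := 2) (j := 2) hp.ne_zero (by norm_num) (by norm_num) ?_).trans ?_
      · rintro a b ⟨-, h1, h2⟩
        exact ⟨F3 hp h5 h2 h1, F2 hp h5 h2 ((pow_dvd_pow _ (by norm_num)).trans h1)⟩
      · have := hp.pos
        norm_num
        nlinarith [sq_nonneg p, pow_pos this 2]
    · rw [if_neg (by omega)]
      refine (cl_box (i := 2) (j := 3) hp.ne_zero (by norm_num) (by norm_num) ?_).trans ?_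
      · rintro a b ⟨-, h1, h2⟩
        exact F4 hp h5 h2 h1
      · have h3 : p ^ (3 + 1 - 2) * p ^ (3 + 1 - 3) = p ^ 3 := by norm_num; ring
        rw [h3, one_mul]
        exact Nat.pow_le_pow_right hp.pos (by norm_num)
    · rw [if_neg (by omega)]
      refine (cl_box (i := 2) (j := 3) hp.ne_zero (by norm_num) (by norm_num) ?_).trans ?_
      · rintro a b ⟨-, h1, h2⟩
        exact F4 hp h5 h2 ((pow_dvd_pow _ (by norm_num)).trans h1)
      · exact le_of_eq (by norm_num; ring)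
    · obtain ⟨k, rfl⟩ : ∃ k, g = k + 4 := ⟨g - 4, by omega⟩
      have hk : 1 ≤ k := by omega
      have h1 := cl_scale (Q := p ^ (k + 4 + 1)) (q := p ^ k) (I := p ^ 3) (J := p ^ 2)
        (pow_ne_zero _ hp.ne_zero) (pow_ne_zero _ hp.ne_zero) (pow_ne_zero _ hp.ne_zero)
        ((p : ℤ) ^ 2) ((p : ℤ) ^ 3)
        (W := fun a b => ¬ ((p : ℤ) ^ 4 ∣ a ∧ (p : ℤ) ^ 6 ∣ b) ∧
          (p : ℤ) ^ (k + 4 + 2) ∣ Dd a b ∧ (p : ℤ) ∣ a)
        (W1 := fun a b => (p : ℤ) ^ k ∣ Dd a b ∧ ¬ ((p : ℤ) ^ 2 ∣ a ∧ (p : ℤ) ^ 3 ∣ b))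
        (by push_cast; exact dvd_of_eq (by ring)) (by push_cast; exact dvd_of_eq (by ring))
        (by
          rintro a b ⟨h1, h2, h3⟩
          obtain ⟨⟨a1, rfl⟩, ⟨b1, rfl⟩⟩ := F4 hp h5 h3 ((pow_dvd_pow _ (by omega)).trans h2)
          refine ⟨a1, b1, rfl, rfl, ?_, ?_⟩
          · have h4 : Dd (p ^ 2 * a1) (p ^ 3 * b1) = (p : ℤ) ^ 6 * Dd a1 b1 := by
              unfold Dd; ring
            rw [h4] at h2
            have h5 : (p : ℤ) ^ 6 * p ^ k ∣ (p : ℤ) ^ 6 * Dd a1 b1 := by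
              rw [← pow_add, show 6 + k = k + 4 + 2 by omega]
              exact h2
            exact (mul_dvd_mul_iff_left (pow_ne_zero 6 hpp.ne_zero)).1 h5
          · rintro ⟨⟨a2, rfl⟩, ⟨b2, rfl⟩⟩
            exact h1 ⟨⟨a2, by ring⟩, ⟨b2, by ring⟩⟩)
      have h2 := loc1 hp h5 hk
      have h3 : (if 6 ≤ k + 4 ∧ k + 4 ≤ 8 then 2 else 1) = if 2 ≤ k ∧ k ≤ 4 then 2 else 1 := by
        congr 1
        apply propext
        omega
      rw [h3]
      calc _ ≤ _ := h1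
        _ ≤ (if 2 ≤ k ∧ k ≤ 4 then 2 else 1) * p ^ k * (p ^ 3 * p ^ 2) :=
          Nat.mul_le_mul_right _ h2
        _ = _ := by ring
  refine (cl_or hq (W1 := fun a b => (p : ℤ) ^ (g + 1) ∣ Dd a b ∧ ¬ (p : ℤ) ∣ a)
    (W2 := fun a b => ¬ ((p : ℤ) ^ 4 ∣ a ∧ (p : ℤ) ^ 6 ∣ b) ∧
      (p : ℤ) ^ (g + 2) ∣ Dd a b ∧ (p : ℤ) ∣ a) ?_).trans ?_
  · rintro a b ⟨h1, h2⟩
    by_cases h3 : (p : ℤ) ∣ a
    · right
      rw [fe, if_neg (by omega), if_pos h3] at h2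
      exact ⟨h1, h2, h3⟩
    · left
      rw [fe, if_neg (by omega), if_neg h3] at h2
      exact ⟨h2, h3⟩
  · split_ifs at hB ⊢
    · omega
    · omega

end big

/-! ### The primes 2 and 3 -/

lemma fib {q : ℕ} [NeZero q] {m : ℕ} (hm : 0 < m) (c : ZMod q) :
    (univ.filter fun x : ZMod q => (m : ZMod q) * x = c).card ≤ m := by
  classical
  rcases (univ.filter fun x : ZMod q => (m : ZMod q) * x = c).eq_empty_or_nonempty with h | ⟨x0, h⟩
  · rw [h, card_empty]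
    exact Nat.zero_le _
  · rw [mem_filter] at h
    refine le_trans (card_le_card_of_injOn (fun x => x - x0) ?_ ?_)
      (IsAddCyclic.card_nsmul_eq_zero_le (α := ZMod q) hm)
    · intro x hx
      rw [mem_coe, mem_filter] at hx
      rw [mem_coe, mem_filter]
      refine ⟨mem_univ _, ?_⟩
      rw [nsmul_eq_mul, mul_sub, hx.2, h.2, sub_self]
    · intro x _ y _ hxy
      exact sub_left_injective hxy

lemma exists_val {p : ℕ} {a : ℤ} (h : ¬ (p : ℤ) ^ 4 ∣ a) :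
    ∃ (α : Fin 4) (a0 : ℤ), a = (p : ℤ) ^ (α : ℕ) * a0 ∧ ¬ (p : ℤ) ∣ a0 := by
  by_cases h1 : (p : ℤ) ∣ a
  · obtain ⟨a1, rfl⟩ := h1
    by_cases h2 : (p : ℤ) ∣ a1
    · obtain ⟨a2, rfl⟩ := h2
      by_cases h3 : (p : ℤ) ∣ a2
      · obtain ⟨a3, rfl⟩ := h3
        refine ⟨3, a3, (by ring : (p : ℤ) * (p * (p * a3)) = (p : ℤ) ^ 3 * a3), fun h4 => h ?_⟩
        obtain ⟨a4, rfl⟩ := h4
        exact ⟨a4, by ring⟩
      · exact ⟨2, a2, (by ring : (p : ℤ) * (p * a2) = (p : ℤ) ^ 2 * a2), h3⟩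
    · exact ⟨1, a1, by simp, h2⟩
  · exact ⟨0, a, by simp, h1⟩

lemma not_four {p g : ℕ} (hp : p = 2 ∨ p = 3) (hg : 15 ≤ g) {a b : ℤ}
    (h1 : ¬ ((p : ℤ) ^ 4 ∣ a ∧ (p : ℤ) ^ 6 ∣ b)) (h2 : (p : ℤ) ^ g ∣ Dd a b) :
    ¬ (p : ℤ) ^ 4 ∣ a := by
  intro h
  apply h1
  refine ⟨h, ?_⟩
  have h15 : (p : ℤ) ^ 15 ∣ Dd a b := (pow_dvd_pow _ hg).trans h2
  obtain ⟨a1, rfl⟩ := h
  obtain ⟨D, hD⟩ := h15
  unfold Dd at hD
  rcases hp with rfl | rfl
  · push_cast at hD ⊢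
    -- `2 ^ 14 ∣ 27 b ^ 2`
    have h3 : (2 : ℤ) ^ 14 ∣ 27 * b ^ 2 := ⟨a1 ^ 3 - 2 * D, by linear_combination (-1) * hD⟩
    have h4 : (2 : ℤ) ^ 14 ∣ b ^ 2 := by
      refine IsCoprime.dvd_of_dvd_mul_left ?_ h3
      norm_num
    have h5 : ((2 : ℤ) ^ 7) ^ 2 ∣ b ^ 2 := by rwa [← pow_mul]
    rw [Int.pow_dvd_pow_iff (by norm_num)] at h5
    exact Dvd.dvd.trans (by norm_num) h5
  · push_cast at hD ⊢
    have h3 : (3 : ℤ) ^ 9 ∣ b ^ 2 := ⟨4 * a1 ^ 3 - 27 * D, by linarith⟩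
    have h4 : (3 : ℤ) ^ 5 ∣ b := by
      -- `3 ^ 8 ∣ b ^ 2` gives `3 ^ 4 ∣ b`
      have h5 : ((3 : ℤ) ^ 4) ^ 2 ∣ b ^ 2 := by
        rw [← pow_mul]
        exact (pow_dvd_pow _ (by norm_num)).trans h3
      rw [Int.pow_dvd_pow_iff (by norm_num)] at h5
      obtain ⟨b1, rfl⟩ := h5
      have h6 : (3 : ℤ) ∣ b1 ^ 2 := by
        obtain ⟨c, hc⟩ := h3
        exact ⟨c, by linarith⟩
      obtain ⟨b2, rfl⟩ := Int.prime_three.dvd_of_dvd_pow h6
      exact ⟨b2, by ring⟩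
    obtain ⟨b1, rfl⟩ := h4
    have h7 : (3 : ℤ) ∣ a1 := by
      have h8 : (3 : ℤ) ∣ 4 * a1 ^ 3 := ⟨b1 ^ 2 + 9 * D, by linarith⟩
      have h9 : (3 : ℤ) ∣ a1 ^ 3 := IsCoprime.dvd_of_dvd_mul_left (by norm_num) h8
      exact Int.prime_three.dvd_of_dvd_pow h9
    obtain ⟨a2, rfl⟩ := h7
    have h10 : (3 : ℤ) ∣ b1 := by
      have h11 : (3 : ℤ) ∣ b1 ^ 2 := ⟨3 * (4 * a2 ^ 3 - D), by linarith⟩
      exact Int.prime_three.dvd_of_dvd_pow h11
    obtain ⟨b2, rfl⟩ := h10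
    exact ⟨b2, by ring⟩

lemma loc_small {p g : ℕ} (hp : p = 2 ∨ p = 3) : cl (p ^ g) (fun a b =>
    ¬ ((p : ℤ) ^ 4 ∣ a ∧ (p : ℤ) ^ 6 ∣ b) ∧ (p : ℤ) ^ (g + fe p a) ∣ Dd a b) ≤
      3 ^ 14 * p ^ g := by
  classical
  have hp0 : p ≠ 0 := by omega
  have hp3 : p ≤ 3 := by omega
  have hpr : p.Prime := by
    rcases hp with rfl | rfl
    · exact Nat.prime_two
    · exact Nat.prime_three
  have hq : p ^ g ≠ 0 := pow_ne_zero _ hp0
  rcases Nat.lt_or_ge 14 g with hg | hg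
  · have : NeZero (p ^ g) := ⟨hq⟩
    set q := p ^ g with hqd
    let T : Finset (Fin 4 × ZMod q × ZMod q) := univ.filter fun z =>
      ((4 * p ^ (3 * (z.1 : ℕ)) : ℕ) : ZMod q) * z.2.1 = 27 * z.2.2 ^ 2
    have h1 : cl q (fun a b => ¬ ((p : ℤ) ^ 4 ∣ a ∧ (p : ℤ) ^ 6 ∣ b) ∧
        (p : ℤ) ^ (g + fe p a) ∣ Dd a b) ≤ (T : Set (Fin 4 × ZMod q × ZMod q)).ncard := by
      refine cl_cover (fun z => ((p : ZMod q) ^ (z.1 : ℕ) * z.2.1, z.2.2 * z.2.1)) _ ?_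
      rintro a b ⟨h1, h2⟩
      rw [fe, if_pos (by omega), add_zero] at h2
      have h3 := not_four hp (by omega) h1 h2
      obtain ⟨α, a0, rfl, ha0⟩ := exists_val h3
      obtain ⟨u, hu⟩ := (unit_of hpr g ha0).exists_right_inv
      have hD := D_zmod (q := q) (by rw [hqd]; push_cast; exact h2)
      push_cast at hD
      refine ⟨(α, ((a0 : ℤ) : ZMod q), (b : ZMod q) * u), ?_, Prod.ext ?_ ?_⟩
      · rw [mem_coe, mem_filter]
        refine ⟨mem_univ _, ?_⟩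
        change ((4 * p ^ (3 * (α : ℕ)) : ℕ) : ZMod q) * (a0 : ZMod q) =
          27 * ((b : ZMod q) * u) ^ 2
        push_cast
        have e1 : (p : ZMod q) ^ (3 * (α : ℕ)) = ((p : ZMod q) ^ (α : ℕ)) ^ 3 := by
          rw [← pow_mul, mul_comm]
        rw [e1]
        set P := (p : ZMod q) ^ (α : ℕ) with hP
        have hu' : (a0 : ZMod q) * u = 1 := hu
        -- `27 b² u² = 4 P³ a0³ u² = 4 P³ a0 (a0 u)²`
        linear_combination (u ^ 2) * hD - (4 * P ^ 3 * a0 * (a0 * u + 1)) * hu'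
      · change (p : ZMod q) ^ (α : ℕ) * (a0 : ZMod q) = (((p : ℤ) ^ (α : ℕ) * a0 : ℤ) : ZMod q)
        push_cast
        rfl
      · change (b : ZMod q) * u * (a0 : ZMod q) = b
        have hu' : (a0 : ZMod q) * u = 1 := hu
        linear_combination (b : ZMod q) * hu'
    rw [Set.ncard_coe_finset] at h1
    refine h1.trans ?_
    have h2 := card_le_mul_card_image (f := fun z : Fin 4 × ZMod q × ZMod q => (z.1, z.2.2)) T
      (4 * 3 ^ 9) (by
        rintro ⟨α, t⟩ -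
        have h3 : (4 * p ^ (3 * (α : ℕ))) ≤ 4 * 3 ^ 9 := by
          refine Nat.mul_le_mul_left _ ?_
          calc p ^ (3 * (α : ℕ)) ≤ 3 ^ (3 * (α : ℕ)) := Nat.pow_le_pow_left hp3 _
            _ ≤ 3 ^ 9 := Nat.pow_le_pow_right (by norm_num) (by omega)
        refine le_trans ?_ ((fib (q := q) (m := 4 * p ^ (3 * (α : ℕ))) (by positivity)
          (27 * t ^ 2)).trans h3)
        refine card_le_card_of_injOn (fun z => z.2.1) ?_ ?_
        · intro z hz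
          rw [mem_coe, mem_filter, mem_filter] at hz
          obtain ⟨⟨-, hz1⟩, hz2⟩ := hz
          rw [mem_coe, mem_filter]
          refine ⟨mem_univ _, ?_⟩
          have e1 : z.1 = α := congrArg Prod.fst hz2
          have e2 : z.2.2 = t := congrArg Prod.snd hz2
          rw [e1, e2] at hz1
          exact hz1
        · intro z hz w hw hzw
          rw [mem_coe, mem_filter, mem_filter] at hz hw
          have e1 : (z.1, z.2.2) = (w.1, w.2.2) := hz.2.trans hw.2.symm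
          have e2 : z.2.1 = w.2.1 := hzw
          exact Prod.ext (Prod.ext_iff.1 e1).1 (Prod.ext e2 (Prod.ext_iff.1 e1).2))
    have h3 : (T.image fun z : Fin 4 × ZMod q × ZMod q => (z.1, z.2.2)).card ≤ 4 * q := by
      refine (card_le_univ _).trans (le_of_eq ?_)
      rw [Fintype.card_prod, Fintype.card_fin, ZMod.card]
    calc T.card ≤ 4 * 3 ^ 9 * (T.image fun z : Fin 4 × ZMod q × ZMod q => (z.1, z.2.2)).card := h2
      _ ≤ 4 * 3 ^ 9 * (4 * q) := Nat.mul_le_mul_left _ h3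
      _ ≤ 3 ^ 14 * q := by norm_num; omega
  · refine (cl_triv hq _).trans (Nat.mul_le_mul_right _ ?_)
    calc p ^ g ≤ 3 ^ g := Nat.pow_le_pow_left hp3 _
      _ ≤ 3 ^ 14 := Nat.pow_le_pow_right (by norm_num) hg

/-! ### The theorem -/

/-- the local modulus -/
def qq (n p : ℕ) : ℕ := p ^ (n.factorization p + if 5 ≤ p then 1 else 0)

/-- the local condition -/
def Wp (n p : ℕ) (a b : ℤ) : Prop :=
  ¬ ((p : ℤ) ^ 4 ∣ a ∧ (p : ℤ) ^ 6 ∣ b) ∧ (p : ℤ) ^ (n.factorization p + fe p a) ∣ Dd a b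

/-- the local number -/
def ccp (n p : ℕ) : ℕ :=
  if 5 ≤ p then (if 6 ≤ n.factorization p ∧ n.factorization p ≤ 8 then 3 else 2) else 1

lemma prod_qq {n : ℕ} (hn : n ≠ 0) : ∏ p ∈ n.primeFactors, qq n p = n * rd n := by
  unfold qq rd
  simp_rw [pow_add]
  rw [prod_mul_distrib, prod_filter]
  congr 1
  · exact Nat.prod_factorization_pow_eq_self hn
  · refine prod_congr rfl fun p _ => ?_
    split_ifs
    · rw [pow_one]
    · rw [pow_zero]

lemma prod_ccp (n : ℕ) : ∏ p ∈ n.primeFactors, ccp n p = cc n := by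
  unfold ccp cc
  rw [prod_filter]

lemma loc_all {n p : ℕ} (hp : p ∈ n.primeFactors) :
    cl (qq n p) (Wp n p) ≤ (if p < 5 then 3 ^ 14 else 1) * (ccp n p * qq n p) := by
  have hpp := Nat.prime_of_mem_primeFactors hp
  have hg : 1 ≤ n.factorization p := by
    have h1 := (Nat.prime_of_mem_primeFactors hp).factorization_pos_of_dvd
      (Nat.mem_primeFactors.1 hp).2.2 (Nat.dvd_of_mem_primeFactors hp)
    exact h1
  by_cases h5 : 5 ≤ p
  · have h1 := loc_big hpp h5 hg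
    rw [if_neg (by omega), one_mul]
    unfold qq ccp Wp
    rw [if_pos h5, if_pos h5]
    exact h1
  · have h23 : p = 2 ∨ p = 3 := by
      have h2 := hpp.two_le
      have h3 : p ≠ 4 := by
        rintro rfl
        revert hpp
        decide
      omega
    have h1 := loc_small (g := n.factorization p) h23
    rw [if_pos (by omega)]
    unfold qq ccp Wp
    rw [if_neg h5, if_neg h5, add_zero, one_mul]
    exact h1

theorem dens : S_DENS := by
  classical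
  refine ⟨(3 ^ 14 * 3 ^ 14 : ℕ), by positivity, ?_⟩
  intro n hn
  have hn0 : n ≠ 0 := by omega
  have hM := prod_qq hn0
  have hdvd : ∀ p ∈ n.primeFactors, qq n p ∣ n * rd n := fun p hp => by
    rw [← hM]
    exact dvd_prod_of_mem _ hp
  refine ⟨fun a b => ∀ p ∈ n.primeFactors, ∃ a' b' : ℤ, Wp n p a' b' ∧
    (a' : ZMod (qq n p)) = (a : ZMod (qq n p)) ∧ (b' : ZMod (qq n p)) = (b : ZMod (qq n p)),
    ?_, ?_, ?_, ?_⟩
  · intro a b
    refine forall₂_congr fun p hp => ?_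
    have h1 : (((n * rd n : ℕ) : ℤ) : ZMod (qq n p)) = 0 := by
      rw [Int.cast_natCast]
      exact (ZMod.natCast_eq_zero_iff _ _).2 (hdvd p hp)
    simp only [Int.cast_add, h1, add_zero]
  · intro a b
    refine forall₂_congr fun p hp => ?_
    have h1 : (((n * rd n : ℕ) : ℤ) : ZMod (qq n p)) = 0 := by
      rw [Int.cast_natCast]
      exact (ZMod.natCast_eq_zero_iff _ _).2 (hdvd p hp)
    simp only [Int.cast_add, h1, add_zero]
  · intro a b hmn hcn p hp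
    exact ⟨a, b, ⟨hmn.2 p (Nat.prime_of_mem_primeFactors hp), hcn p hp⟩, rfl, rfl⟩
  · intro F hF
    -- the map to the product of the local sets
    have hne : ∀ p : n.primeFactors, NeZero (qq n p) := fun p =>
      ⟨pow_ne_zero _ (Nat.prime_of_mem_primeFactors p.2).ne_zero⟩
    let S : ∀ p : n.primeFactors, Finset (ZMod (qq n p) × ZMod (qq n p)) :=
      fun p => (Set.toFinite (Cl (qq n p) (Wp n p))).toFinset
    have hcard : F.card ≤ ∏ p : n.primeFactors, (S p).card := by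
      rw [← Fintype.card_piFinset]
      refine card_le_card_of_injOn
        (fun x p => ((x.1 : ZMod (qq n p)), (x.2 : ZMod (qq n p)))) ?_ ?_
      · intro x hx
        rw [mem_coe, Fintype.mem_piFinset]
        intro p
        rw [Set.Finite.mem_toFinset]
        obtain ⟨a, b, hW, ha, hb⟩ := (hF x hx).2.2.2.2 p p.2
        exact ⟨a, b, hW, ha, hb⟩
      · intro x hx y hy hxy
        have key : ∀ c d : ℤ, 0 ≤ c → c < (n * rd n : ℕ) → 0 ≤ d → d < (n * rd n : ℕ) →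
            (∀ p ∈ n.primeFactors, (c : ZMod (qq n p)) = (d : ZMod (qq n p))) → c = d := by
          intro c d hc1 hc2 hd1 hd2 h
          have h1 : ((n * rd n : ℕ) : ℤ) ∣ c - d := by
            rw [← hM, Nat.cast_prod]
            refine Finset.prod_dvd_of_coprime ?_ ?_
            · intro p hp q hq hpq
              have hc : Nat.Coprime (qq n p) (qq n q) := by
                unfold qq
                refine Nat.Coprime.pow _ _ ?_
                exact (Nat.coprime_primes (Nat.prime_of_mem_primeFactors hp)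
                  (Nat.prime_of_mem_primeFactors hq)).2 hpq
              exact Nat.isCoprime_iff_coprime.2 hc
            · intro p hp
              exact (ZMod.intCast_eq_intCast_iff_dvd_sub _ _ _).1 (h p hp).symm
          have h2 : |c - d| < (n * rd n : ℕ) := by
            rw [abs_lt]
            constructor <;> linarith
          have h3 := Int.eq_zero_of_abs_lt_dvd h1 h2
          linarith
        obtain ⟨h1, h2, h3, h4, -⟩ := hF x hx
        obtain ⟨h5, h6, h7, h8, -⟩ := hF y hy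
        refine Prod.ext (key _ _ h1 h2 h5 h6 fun p hp => ?_) (key _ _ h3 h4 h7 h8 fun p hp => ?_)
        · exact congrArg Prod.fst (congrFun hxy ⟨p, hp⟩)
        · exact congrArg Prod.snd (congrFun hxy ⟨p, hp⟩)
    have h1 : ∀ p : n.primeFactors, (S p).card = cl (qq n p) (Wp n p) := fun p => by
      unfold cl
      rw [Set.ncard_eq_toFinset_card _ (Set.toFinite _)]
    simp only [h1] at hcard
    rw [Finset.prod_coe_sort n.primeFactors (fun p => cl (qq n p) (Wp n p))] at hcard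
    have h2 : ∏ p ∈ n.primeFactors, cl (qq n p) (Wp n p) ≤
        (∏ p ∈ n.primeFactors, if p < 5 then 3 ^ 14 else 1) * (cc n * (n * rd n)) := by
      rw [← hM, ← prod_ccp, ← prod_mul_distrib, ← prod_mul_distrib]
      exact prod_le_prod' fun p hp => loc_all hp
    have h3 : (∏ p ∈ n.primeFactors, if p < 5 then 3 ^ 14 else 1) ≤ 3 ^ 14 * 3 ^ 14 := by
      rw [← prod_filter, prod_const]
      have h4 : (n.primeFactors.filter fun p => p < 5) ⊆ {2, 3} := by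
        intro p hp
        rw [mem_filter] at hp
        have h5 := (Nat.prime_of_mem_primeFactors hp.1).two_le
        have h6 : p ≠ 4 := by
          rintro rfl
          have := Nat.prime_of_mem_primeFactors hp.1
          revert this
          decide
        have h7 := hp.2
        have : p = 2 ∨ p = 3 := by omega
        simp only [mem_insert, mem_singleton]
        exact this
      have h5 := card_le_card h4
      have h6 : ({2, 3} : Finset ℕ).card = 2 := rfl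
      calc (3 ^ 14) ^ (n.primeFactors.filter fun p => p < 5).card ≤ (3 ^ 14) ^ 2 :=
            Nat.pow_le_pow_right (by norm_num) (by omega)
        _ = 3 ^ 14 * 3 ^ 14 := by norm_num
    have h4 : F.card ≤ 3 ^ 14 * 3 ^ 14 * (cc n * (n * rd n)) :=
      hcard.trans (h2.trans (Nat.mul_le_mul_right _ h3))
    calc (F.card : ℝ) ≤ ((3 ^ 14 * 3 ^ 14 * (cc n * (n * rd n)) : ℕ) : ℝ) := by
          exact_mod_cast h4
      _ = ((3 ^ 14 * 3 ^ 14 : ℕ) : ℝ) * cc n * (n * rd n : ℕ) := by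
          push_cast
          ring

end Pool.Agent.N966.SZ

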