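import Pool.Agent.N988.ET.Stm

/-!
# Project ET (helper988), leaf IND: the induction
-/

set_option autoImplicit false

open MeasureTheory Set Filter
open scoped Topology
open Pool.Agent.N988.EA Pool.Agent.N988.EC Pool.Agent.N988.EP Pool.Agent.N988.ES
open Pool.Agent.N988.ET

namespace Pool.Agent.N966.ET

noncomputable section

open Classical

/-- hereditary states -/
def Her {b n : ℕ} (p : ℝ) (a : Edge b n → Option Bool) : Prop :=
  ∀ t, Runs p t a → Every (fun a => a = fresh b n ∨ Ineq p a) t a

/-- the conditional probability of the crossing -/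
def xv {b n : ℕ} (p : ℝ) (a : Edge b n → Option Bool) : ℝ := px p a / pf p a

/-- the cost for `k` fresh branches -/
def V (p κ : ℝ) (k : ℕ) : ℝ := κ * (1 + p) * (1 - (1 - p ^ 2) ^ k) / p ^ 2

theorem V_zero (p κ : ℝ) : V p κ 0 = 0 := by simp [V]

theorem V_succ (p κ : ℝ) (hp : p ≠ 0) (k : ℕ) :
    V p κ (k + 1) = κ * (1 + p) + (1 - p ^ 2) * V p κ k := by
  unfold V
  rw [pow_succ]
  field_simp
  ring

theorem V_b {b : ℕ} {p : ℝ} (hc : Crit b p) (κ : ℝ) : V p κ b = κ * (1 + 1 / p) := by
  have hp : p ≠ 0 := hc.pos.ne'
  unfold V
  rw [hc.fix]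
  field_simp
  ring

theorem her_step {b n : ℕ} {p : ℝ} (hR : ∀ a : Edge b n → Option Bool, ∃ t, Runs p t a)
    {a : Edge b n → Option Bool} (hk : ¬ Known a) {e : Edge b n} (he : Best p a e)
    (h : Her p a) (x : Bool) : Her p (Function.update a e (some x)) := by
  obtain ⟨t1, ht1⟩ := hR (Function.update a e (some false))
  obtain ⟨t2, ht2⟩ := hR (Function.update a e (some true))
  intro t ht
  cases x with
  | false => exact (h (.ask e t t2) ⟨hk, he, ht, ht2⟩).2.1
  | true => exact (h (.ask e t1 t) ⟨hk, he, ht1, ht⟩).2.2

theorem her_q {b n : ℕ} {p : ℝ} (hR : ∀ a : Edge b n → Option Bool, ∃ t, Runs p t a)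
    {a : Edge b n → Option Bool} (hk : ¬ Known a) (h : Her p a) :
    a = fresh b n ∨ Ineq p a := by
  obtain ⟨t, ht⟩ := hR a
  cases t with
  | stop => exact absurd ht hk
  | ask e t u => exact (h _ ht).1

theorem cs_same {b n : ℕ} (a : Edge b (n + 1) → Option Bool) (i : Fin b) (s : Bool)
    (e : Edge b n) (x : Option Bool) :
    cs (Function.update a ((i, s, e) : Edge b (n + 1)) x) i s =
      Function.update (cs a i s) e x := by
  funext e'
  unfold cs
  by_cases h : e' = e
  · subst h
    rw [Function.update_self, Function.update_self]
  · rw [Function.update_of_ne h, Function.update_of_ne]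
    intro h'
    exact h (congrArg (fun q : Fin b × Bool × Edge b n => q.2.2) h')

theorem cs_other {b n : ℕ} (a : Edge b (n + 1) → Option Bool) (i j : Fin b) (s r : Bool)
    (e : Edge b n) (x : Option Bool) (h : ¬ (j = i ∧ r = s)) :
    cs (Function.update a ((i, s, e) : Edge b (n + 1)) x) j r = cs a j r := by
  funext e'
  unfold cs
  rw [Function.update_of_ne]
  intro h'
  exact h ⟨congrArg (fun q : Fin b × Bool × Edge b n => q.1) h',
    congrArg (fun q : Fin b × Bool × Edge b n => q.2.1) h'⟩

theorem ctx_update {b n : ℕ} {p : ℝ} {F : Finset (Fin b)} {i : Fin b}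
    {a : Edge b (n + 1) → Option Bool} (h : Ctx p F i a) (s : Bool) (e : Edge b n)
    (x : Option Bool) : Ctx p F i (Function.update a ((i, s, e) : Edge b (n + 1)) x) := by
  refine ⟨h.1, ?_, ?_⟩
  · intro j hj r
    rw [cs_other a i j s r e x (fun hh => h.1 (hh.1 ▸ hj))]
    exact h.2.1 j hj r
  · intro j hj hji
    rw [cs_other a i j s false e x (fun hh => hji hh.1),
      cs_other a i j s true e x (fun hh => hji hh.1)]
    exact h.2.2 j hj hji

/-- a branch with two open halves -/
theorem open_known {b n : ℕ} (hb : 1 ≤ b) {p : ℝ}
    (h3 : ∀ a : Edge b n → Option Bool, Known a ↔ px p a = 0 ∨ px p a = pf p a)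
    (h1 : ∀ a : Edge b n → Option Bool, 0 < pf p a) (a : Edge b (n + 1) → Option Bool)
    (i : Fin b) (ho : ∀ s, px p (cs a i s) = pf p (cs a i s)) : Known a := by
  have hone : ∀ w : Edge b (n + 1) → Bool, Fits a w → cross w = 1 := by
    intro w hw
    have hs : ∀ s, Y n (sub w i s) = 0 := by
      intro s
      have hfit : Fits (cs a i s) (sub w i s) := fun e x hx => hw _ x hx
      have hK : Known (cs a i s) := (h3 _).2 (Or.inr (ho s))
      have hcr : cross (sub w i s) = 1 := by
        by_contra hne
        have hempty : {w' : Edge b n → Bool | Fits (cs a i s) w' ∧ cross w' = 1} = ∅ := by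
          ext w'
          simp only [mem_setOf_eq, mem_empty_iff_false, iff_false, not_and]
          intro hw' hc'
          exact hne ((hK _ _ hfit hw').trans hc')
        have h0 : px p (cs a i s) = 0 := by
          unfold px
          rw [hempty, measureReal_empty]
        have hpos := h1 (cs a i s)
        rw [← ho s, h0] at hpos
        exact lt_irrefl _ hpos
      have hac : across (sub w i s) = 0 := by
        unfold cross at hcr
        by_contra hne
        rw [if_neg hne] at hcr
        norm_num at hcr
      rw [← (k_LOW b hb).1 n (sub w i s)]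
      exact hac
    have hY : Y (n + 1) w = 0 := by
      have h4 : Y (n + 1) w ≤ Y n (sub w i false) + Y n (sub w i true) :=
        ciInf_le (OrderBot.bddBelow _) i
      rw [hs false, hs true] at h4
      omega
    unfold cross
    rw [if_pos]
    rw [(k_LOW b hb).1 (n + 1) w]
    exact hY
  intro w w' hw hw'
  rw [hone w hw, hone w' hw']

theorem t_IND (h1 : S_BAS) (h2 : S_FR) (h3 : S_D0) (h4 : S_D1) (h5 : S_D2) : S_IND := by
  intro b p hc n hT
  have hb : 1 ≤ b := le_trans (by norm_num) hc.two
  have hp : p ≠ 0 := hc.pos.ne'
  have hp1 : 1 - p ≠ 0 := by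
    have := hc.lt
    intro h
    linarith
  obtain ⟨A1, A2, A3, A4, A5, A6, -⟩ := h1 b n hb p hc.pos hc.lt
  have hpf : ∀ a : Edge b n → Option Bool, 0 < pf p a := fun a => (A1 a).1
  obtain ⟨hf1, hf2, -⟩ := h2 b p hc n
  set κ : ℝ := (1 + 1 / p) ^ n with hκ
  -- the fresh state
  have hHf : Her p (fresh b n) := fun t ht => (hT t ht).2
  have hxf : xv p (fresh b n) = p := by
    unfold xv
    rw [hf1, hf2, div_one]
  have hKf : ¬ Known (fresh b n) := by
    rw [A3, hf1, hf2]
    intro h
    rcases h with h | h
    · exact hp h
    · exact hc.lt.ne h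
  -- conditional probabilities
  have hxs : ∀ (a : Edge b n → Option Bool) (e : Edge b n), a e = none →
      p * xv p (Function.update a e (some false)) +
        (1 - p) * xv p (Function.update a e (some true)) = xv p a := by
    intro a e he
    obtain ⟨h6, h7, h8⟩ := A2 a e he
    have h9 := (hpf a).ne'
    unfold xv
    rw [h6, h7, ← h8]
    field_simp
  have hx0 : ∀ a : Edge b n → Option Bool, px p a = 0 → xv p a = 0 := by
    intro a h
    unfold xv
    rw [h, zero_div]
  have hx1 : ∀ a : Edge b n → Option Bool, px p a = pf p a → xv p a = 1 := by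
    intro a h
    unfold xv
    rw [h]
    exact div_self (hpf a).ne'
  -- claim (2)
  have step2 : ∀ k : ℕ,
      (∀ (F : Finset (Fin b)) (a : Edge b (n + 1) → Option Bool), F.card = k →
        (∀ j ∈ F, ∀ s, cs a j s = fresh b n) →
        (∀ j, j ∉ F → px p (cs a j false) = 0 ∨ px p (cs a j true) = 0) →
        ∀ t, Runs p t a → cost p t = V p κ k ∧
          Every (fun a => a = fresh b (n + 1) ∨ Ineq p a) t a) →
      ∀ (t : Pool.Agent.N988.ET.Tree (Edge b (n + 1))) (F : Finset (Fin b)) (i : Fin b) (s : Bool)
        (a : Edge b (n + 1) → Option Bool), F.card = k → Ctx p F i a →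
        px p (cs a i (!s)) = pf p (cs a i (!s)) → Her p (cs a i s) → Runs p t a →
        ∃ t', Runs p t' (cs a i s) ∧ cost p t = cost p t' + (1 - xv p (cs a i s)) * V p κ k ∧
          Every (fun a => a = fresh b (n + 1) ∨ Ineq p a) t a := by
    intro k P0 t
    induction t with
    | stop =>
      intro F i s a hF hC ho hH ht
      by_cases hk : Known (cs a i s)
      · rcases (A3 _).1 hk with h | h
        · refine ⟨.stop, hk, ?_⟩
          obtain ⟨h6, h7⟩ := P0 F a hF hC.2.1 (fun j hj => by
            by_cases hji : j = i
            · subst hji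
              cases s
              · exact Or.inl h
              · exact Or.inr h
            · exact hC.2.2 j hj hji) _ ht
          refine ⟨?_, h7⟩
          rw [h6, hx0 _ h]
          simp [cost]
        · refine ⟨.stop, hk, ?_, trivial⟩
          rw [hx1 _ h]
          simp [cost]
      · exact absurd ht (h5 b p hc n F i s a hC ho hk (her_q A6 hk hH)).1
    | ask e t u iht ihu =>
      intro F i s a hF hC ho hH ht
      by_cases hk : Known (cs a i s)
      · rcases (A3 _).1 hk with h | h
        · refine ⟨.stop, hk, ?_⟩
          obtain ⟨h6, h7⟩ := P0 F a hF hC.2.1 (fun j hj => by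
            by_cases hji : j = i
            · subst hji
              cases s
              · exact Or.inl h
              · exact Or.inr h
            · exact hC.2.2 j hj hji) _ ht
          refine ⟨?_, h7⟩
          rw [h6, hx0 _ h]
          simp [cost]
        · exfalso
          refine ht.1 (open_known hb A3 hpf a i ?_)
          intro r
          cases s <;> cases r
          · exact h
          · exact ho
          · exact ho
          · exact h
      · obtain ⟨h6, h7, h8⟩ := h5 b p hc n F i s a hC ho hk (her_q A6 hk hH)
        obtain ⟨h9, h10, h11, h12⟩ := ht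
        obtain ⟨e', rfl, he'⟩ := h8 e h10
        have hother : ∀ x, cs (Function.update a ((i, s, e') : Edge b (n + 1)) x) i (!s) =
            cs a i (!s) := fun x => cs_other a i i s (!s) e' x (fun hh => by
              have := hh.2
              cases s <;> simp at this)
        obtain ⟨t', ht', hct, hEt⟩ := iht F i s _ hF (ctx_update hC s e' (some false))
          (by rw [hother]; exact ho)
          (by rw [cs_same]; exact her_step A6 hk he' hH false) h11
        obtain ⟨u', hu', hcu, hEu⟩ := ihu F i s _ hF (ctx_update hC s e' (some true))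
          (by rw [hother]; exact ho)
          (by rw [cs_same]; exact her_step A6 hk he' hH true) h12
        rw [cs_same] at ht' hu' hct hcu
        refine ⟨.ask e' t' u', ⟨hk, he', ht', hu'⟩, ?_, Or.inr h7, hEt, hEu⟩
        have hx := hxs (cs a i s) e' he'.1
        simp only [cost]
        rw [hct, hcu, ← hx]
        ring
  -- claim (1)
  have step1 : ∀ k : ℕ,
      (∀ (F : Finset (Fin b)) (a : Edge b (n + 1) → Option Bool), F.card = k →
        (∀ j ∈ F, ∀ s, cs a j s = fresh b n) →
        (∀ j, j ∉ F → px p (cs a j false) = 0 ∨ px p (cs a j true) = 0) →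
        ∀ t, Runs p t a → cost p t = V p κ k ∧
          Every (fun a => a = fresh b (n + 1) ∨ Ineq p a) t a) →
      ∀ (t : Pool.Agent.N988.ET.Tree (Edge b (n + 1))) (F : Finset (Fin b)) (i : Fin b) (s : Bool)
        (a : Edge b (n + 1) → Option Bool), F.card = k → Ctx p F i a →
        cs a i (!s) = fresh b n → Her p (cs a i s) → cs a i s ≠ fresh b n → Runs p t a →
        ∃ t', Runs p t' (cs a i s) ∧ cost p t = cost p t' +
          (xv p (cs a i s) * (κ + (1 - p) * V p κ k) + (1 - xv p (cs a i s)) * V p κ k) ∧
          Every (fun a => a = fresh b (n + 1) ∨ Ineq p a) t a := by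
    intro k P0 t
    -- the case of a known half
    have hknown : ∀ (t : Pool.Agent.N988.ET.Tree (Edge b (n + 1))) (F : Finset (Fin b)) (i : Fin b) (s : Bool)
        (a : Edge b (n + 1) → Option Bool), F.card = k → Ctx p F i a →
        cs a i (!s) = fresh b n → Known (cs a i s) → Runs p t a →
        ∃ t', Runs p t' (cs a i s) ∧ cost p t = cost p t' +
          (xv p (cs a i s) * (κ + (1 - p) * V p κ k) + (1 - xv p (cs a i s)) * V p κ k) ∧
          Every (fun a => a = fresh b (n + 1) ∨ Ineq p a) t a := by
      intro t F i s a hF hC ho hk ht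
      rcases (A3 _).1 hk with h | h
      · refine ⟨.stop, hk, ?_⟩
        obtain ⟨h6, h7⟩ := P0 F a hF hC.2.1 (fun j hj => by
          by_cases hji : j = i
          · subst hji
            cases s
            · exact Or.inl h
            · exact Or.inr h
          · exact hC.2.2 j hj hji) _ ht
        refine ⟨?_, h7⟩
        rw [h6, hx0 _ h]
        simp [cost]
      · refine ⟨.stop, hk, ?_⟩
        obtain ⟨t'', h6, h7, h8⟩ := step2 k P0 t F i (!s) a hF hC
          (by rw [Bool.not_not]; exact h) (by rw [ho]; exact hHf) ht
        refine ⟨?_, h8⟩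
        rw [ho] at h6 h7
        rw [h7, (hT t'' h6).1, hxf, hx1 _ h, ← hκ]
        simp only [cost]
        ring
    induction t with
    | stop =>
      intro F i s a hF hC ho hH hne ht
      by_cases hk : Known (cs a i s)
      · exact hknown _ F i s a hF hC ho hk ht
      · exact absurd ht (h4 b p hc n F i s a hC ho hk ((her_q A6 hk hH).resolve_left hne)).1
    | ask e t u iht ihu =>
      intro F i s a hF hC ho hH hne ht
      by_cases hk : Known (cs a i s)
      · exact hknown _ F i s a hF hC ho hk ht
      · obtain ⟨h6, h7, h8⟩ := h4 b p hc n F i s a hC ho hk ((her_q A6 hk hH).resolve_left hne)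
        obtain ⟨h9, h10, h11, h12⟩ := ht
        obtain ⟨e', rfl, he'⟩ := h8 e h10
        have hother : ∀ x, cs (Function.update a ((i, s, e') : Edge b (n + 1)) x) i (!s) =
            cs a i (!s) := fun x => cs_other a i i s (!s) e' x (fun hh => by
              have := hh.2
              cases s <;> simp at this)
        have hnf : ∀ x : Bool, Function.update (cs a i s) e' (some x) ≠ fresh b n := by
          intro x hh
          have := congrFun hh e'
          rw [Function.update_self] at this
          simp [fresh] at this
        obtain ⟨t', ht', hct, hEt⟩ := iht F i s _ hF (ctx_update hC s e' (some false))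
          (by rw [hother]; exact ho)
          (by rw [cs_same]; exact her_step A6 hk he' hH false)
          (by rw [cs_same]; exact hnf false) h11
        obtain ⟨u', hu', hcu, hEu⟩ := ihu F i s _ hF (ctx_update hC s e' (some true))
          (by rw [hother]; exact ho)
          (by rw [cs_same]; exact her_step A6 hk he' hH true)
          (by rw [cs_same]; exact hnf true) h12
        rw [cs_same] at ht' hu' hct hcu
        refine ⟨.ask e' t' u', ⟨hk, he', ht', hu'⟩, ?_, Or.inr h7, hEt, hEu⟩
        have hx := hxs (cs a i s) e' he'.1
        simp only [cost]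
        rw [hct, hcu, ← hx]
        ring
  -- claim (0)
  have step0 : ∀ k : ℕ,
      ∀ (F : Finset (Fin b)) (a : Edge b (n + 1) → Option Bool), F.card = k →
        (∀ j ∈ F, ∀ s, cs a j s = fresh b n) →
        (∀ j, j ∉ F → px p (cs a j false) = 0 ∨ px p (cs a j true) = 0) →
        ∀ t, Runs p t a → cost p t = V p κ k ∧
          Every (fun a => a = fresh b (n + 1) ∨ Ineq p a) t a := by
    intro k
    induction k with
    | zero =>
      intro F a hF hfr hcl t ht
      have hF0 : F = ∅ := Finset.card_eq_zero.1 hF
      have hK : Known a := (h3 b p hc n F a hfr hcl).1 hF0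
      cases t with
      | stop => exact ⟨by rw [V_zero]; rfl, trivial⟩
      | ask e t u => exact absurd hK ht.1
    | succ k ih =>
      intro F a hF hfr hcl t ht
      have hne : F.Nonempty := Finset.card_pos.1 (by omega)
      obtain ⟨h6, h7, h8⟩ := (h3 b p hc n F a hfr hcl).2 hne
      cases t with
      | stop => exact absurd ht h6
      | ask e t u =>
        obtain ⟨h9, h10, h11, h12⟩ := ht
        obtain ⟨i, hi, s, e', rfl, he'⟩ := h8 e h10
        have hcard : (F.erase i).card = k := by
          rw [Finset.card_erase_of_mem hi]
          omega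
        have hC : ∀ x, Ctx p (F.erase i) i
            (Function.update a ((i, s, e') : Edge b (n + 1)) x) := by
          intro x
          refine ⟨Finset.notMem_erase i F, ?_, ?_⟩
          · intro j hj r
            have hj' := Finset.mem_erase.1 hj
            rw [cs_other a i j s r e' x (fun hh => hj'.1 hh.1)]
            exact hfr j hj'.2 r
          · intro j hj hji
            rw [cs_other a i j s false e' x (fun hh => hji hh.1),
              cs_other a i j s true e' x (fun hh => hji hh.1)]
            exact hcl j (fun hjF => hj (Finset.mem_erase.2 ⟨hji, hjF⟩))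
        have hother : ∀ x, cs (Function.update a ((i, s, e') : Edge b (n + 1)) x) i (!s) =
            fresh b n := fun x => by
          rw [cs_other a i i s (!s) e' x (fun hh => by
              have := hh.2
              cases s <;> simp at this)]
          exact hfr i hi _
        have hsame : ∀ x, cs (Function.update a ((i, s, e') : Edge b (n + 1)) x) i s =
            Function.update (fresh b n) e' x := fun x => by
          rw [cs_same, hfr i hi s]
        have hnf : ∀ x : Bool, Function.update (fresh b n) e' (some x) ≠ fresh b n := by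
          intro x hh
          have := congrFun hh e'
          rw [Function.update_self] at this
          simp [fresh] at this
        obtain ⟨t', ht', hct, hEt⟩ := step1 k ih t (F.erase i) i s _ hcard (hC (some false))
          (hother _) (by rw [hsame]; exact her_step A6 hKf he' hHf false)
          (by rw [hsame]; exact hnf false) h11
        obtain ⟨u', hu', hcu, hEu⟩ := step1 k ih u (F.erase i) i s _ hcard (hC (some true))
          (hother _) (by rw [hsame]; exact her_step A6 hKf he' hHf true)
          (by rw [hsame]; exact hnf true) h12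
        rw [hsame] at ht' hu' hct hcu
        refine ⟨?_, h7, hEt, hEu⟩
        have hrun : Runs p (.ask e' t' u') (fresh b n) := ⟨hKf, he', ht', hu'⟩
        have hcost := (hT _ hrun).1
        have hx := hxs (fresh b n) e' he'.1
        rw [hxf] at hx
        simp only [cost] at hcost ⊢
        rw [hct, hcu, V_succ p κ hp k]
        linear_combination hcost + (κ + (1 - p) * V p κ k - V p κ k) * hx
  -- the end
  intro t ht
  obtain ⟨h6, h7⟩ := step0 b Finset.univ (fresh b (n + 1)) (by simp)
    (fun j _ s => rfl) (fun j hj => absurd (Finset.mem_univ j) hj) t ht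
  refine ⟨?_, h7⟩
  rw [h6, V_b hc, hκ, pow_succ]

end

end Pool.Agent.N966.ET

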