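import Pool.Agent.N212.KS.Stm

/-!
# Project KS (helper212), leaf NN: canonical heights are non-negative
-/

set_option autoImplicit false

namespace Pool.Agent.N966.KS

open Pool.Agent.N212.KS

universe u v w z

theorem t_NN : S_NN.{u, v, w, z} := by
  classical
  intro X N G ι _ _ _ _ _ _ D P E Z c hS hZ hc i y hy
  by_contra hneg
  rw [not_le] at hneg
  obtain ⟨-, hc2, A, B, hA, hAB⟩ := hc
  obtain ⟨g, hg1, hg2⟩ := hS i
  set S := ∑ j, |c j y| with hSdef
  have hpos : 0 < A * (-(c i y)) := mul_pos hA (by linarith)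
  obtain ⟨n, hn⟩ := pow_unbounded_of_one_lt ((A * S + B) / (A * (-(c i y)))) hg1
  rw [div_lt_iff₀ hpos] at hn
  have hny : g ^ n • y ∉ Z := fun h => hy ((hZ (g ^ n) y).1 h)
  have h1 := hAB _ hny
  have h2 := D.one_le_H (g ^ n • y)
  have h3 : ∑ j, c j (g ^ n • y) ≤ E.χ i g ^ n * c i y + S := by
    calc ∑ j, c j (g ^ n • y) ≤ ∑ j, ((if j = i then E.χ i g ^ n * c i y else 0) + |c j y|) := by
          refine Finset.sum_le_sum fun j _ => ?_
          rw [hc2 j (g ^ n) y hy, map_pow]
          by_cases hj : j = i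
          · rw [if_pos hj, hj]
            linarith [abs_nonneg (c i y)]
          · rw [if_neg hj, zero_add]
            have h4 := hg2 j hj
            have h5 := E.χ_pos j g
            have h6 : E.χ j g ^ n ≤ 1 := pow_le_one₀ h5.le h4
            calc E.χ j g ^ n * c j y ≤ E.χ j g ^ n * |c j y| :=
                  mul_le_mul_of_nonneg_left (le_abs_self _) (pow_pos h5 n).le
              _ ≤ 1 * |c j y| := mul_le_mul_of_nonneg_right h6 (abs_nonneg _)
              _ = |c j y| := one_mul _
      _ = E.χ i g ^ n * c i y + S := by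
          rw [Finset.sum_add_distrib, Finset.sum_ite_eq' Finset.univ i
            (fun _ => E.χ i g ^ n * c i y), if_pos (Finset.mem_univ i)]
  have h7 := mul_le_mul_of_nonneg_left h3 hA.le
  nlinarith

end Pool.Agent.N966.KS

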